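import Pool.Agent.TH522.US.Two
import Pool.Agent.TH522.UG.Mixed

/-!
Rounding of one soft part to a set of vertices, and the greedy union of such sets.
-/

namespace Pool.Agent.TH522.US

open Finset Pool.Agent.H647R3.UG Pool.Agent.H573R3.SL Pool.Agent.TH522.UG

/-- choice of a level set -/
theorem layer {I V : Type} [Fintype I] [Fintype V] [DecidableEq V] (c : I → ℝ) (x y : I → V)
    (d : V → ℝ) (β : ℝ) : ∀ (N : ℕ) (P : V → ℝ), (∀ v, 0 ≤ P v) →
      (univ.filter fun v => 0 < P v).card ≤ N →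
      β * ∑ v, d v * P v < ∑ i, c i * min (P (x i)) (P (y i)) →
      ∃ S : Finset V, S.Nonempty ∧ (∀ v ∈ S, 0 < P v) ∧
        β * ∑ v ∈ S, d v ≤ ∑ i, c i * (if x i ∈ S ∧ y i ∈ S then 1 else 0) := by
  have hzero : ∀ P : V → ℝ, (∀ v, P v = 0) →
      ¬ (β * ∑ v, d v * P v < ∑ i, c i * min (P (x i)) (P (y i))) := by
    intro P h0 h
    simp [h0] at h
  intro N
  induction N with
  | zero =>
    intro P hP hc h
    exfalso
    refine hzero P (fun v => ?_) h
    by_contra hne
    have h1 : v ∈ univ.filter fun v => 0 < P v :=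
      mem_filter.2 ⟨mem_univ _, lt_of_le_of_ne (hP v) (Ne.symm hne)⟩
    have h2 := card_pos.2 ⟨v, h1⟩
    omega
  | succ N ih =>
    intro P hP hc h
    set S0 := univ.filter fun v => 0 < P v with hS0
    have hmem : ∀ v, v ∉ S0 → P v = 0 := by
      intro v hv
      by_contra hne
      exact hv (mem_filter.2 ⟨mem_univ _, lt_of_le_of_ne (hP v) (Ne.symm hne)⟩)
    by_cases hne : S0.Nonempty
    · obtain ⟨v0, hv0, hmin⟩ := exists_min_image S0 P hne
      have hp0 : 0 < P v0 := (mem_filter.1 hv0).2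
      by_cases hcase : β * ∑ v ∈ S0, d v ≤ ∑ i, c i * (if x i ∈ S0 ∧ y i ∈ S0 then 1 else 0)
      · exact ⟨S0, hne, fun v hv => (mem_filter.1 hv).2, hcase⟩
      · push Not at hcase
        set P' : V → ℝ := fun v => P v - (if v ∈ S0 then P v0 else 0) with hP'
        have hin : ∀ v, v ∈ S0 → P' v = P v - P v0 := fun v hv => by
          simp only [hP', if_pos hv]
        have hout : ∀ v, v ∉ S0 → P' v = 0 := fun v hv => by
          simp only [hP', if_neg hv, hmem v hv, sub_zero]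
        have hP'0 : ∀ v, 0 ≤ P' v := by
          intro v
          by_cases hv : v ∈ S0
          · rw [hin v hv]; linarith [hmin v hv]
          · rw [hout v hv]
        have hcard : (univ.filter fun v => 0 < P' v).card ≤ N := by
          have hsub : (univ.filter fun v => 0 < P' v) ⊆ S0.erase v0 := by
            intro v hv
            have hv' := (mem_filter.1 hv).2
            have hvS : v ∈ S0 := by
              by_contra hcon
              rw [hout v hcon] at hv'
              exact lt_irrefl _ hv'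
            refine mem_erase.2 ⟨fun heq => ?_, hvS⟩
            rw [hin v hvS, heq, sub_self] at hv'
            exact lt_irrefl _ hv'
          have h3 := card_le_card hsub
          rw [card_erase_of_mem hv0] at h3
          omega
        have hminP : ∀ u v, min (P u) (P v) = min (P' u) (P' v) +
            P v0 * (if u ∈ S0 ∧ v ∈ S0 then 1 else 0) := by
          intro u v
          by_cases hu : u ∈ S0
          · by_cases hv : v ∈ S0
            · rw [if_pos ⟨hu, hv⟩, hin u hu, hin v hv, min_sub_sub_right]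
              ring
            · rw [if_neg fun h => hv h.2, hout v hv, hmem v hv, min_eq_right (hP u),
                min_eq_right (hP'0 u)]
              ring
          · rw [if_neg fun h => hu h.1, hout u hu, hmem u hu, min_eq_left (hP v),
                min_eq_left (hP'0 v)]
            ring
        have e1 : ∑ v, d v * P v = ∑ v, d v * P' v + P v0 * ∑ v ∈ S0, d v := by
          have h4 : ∀ v, d v * P v = d v * P' v + P v0 * (if v ∈ S0 then d v else 0) := by
            intro v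
            simp only [hP']
            split_ifs <;> ring
          rw [sum_congr rfl fun v _ => h4 v, sum_add_distrib, ← mul_sum, sum_ite_mem, univ_inter]
        have e2 : ∑ i, c i * min (P (x i)) (P (y i)) = ∑ i, c i * min (P' (x i)) (P' (y i)) +
            P v0 * ∑ i, c i * (if x i ∈ S0 ∧ y i ∈ S0 then 1 else 0) := by
          rw [mul_sum, ← sum_add_distrib]
          refine sum_congr rfl fun i _ => ?_
          rw [hminP]
          ring
        have h5 : P v0 * ∑ i, c i * (if x i ∈ S0 ∧ y i ∈ S0 then 1 else 0) <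
            P v0 * (β * ∑ v ∈ S0, d v) := mul_lt_mul_of_pos_left hcase hp0
        obtain ⟨S, hS, hSP, hSb⟩ := ih P' hP'0 hcard (by
          rw [e1, e2] at h
          nlinarith)
        refine ⟨S, hS, fun v hv => ?_, hSb⟩
        by_contra hcon
        have h6 := hSP v hv
        have h7 : v ∉ S0 := fun h8 => hcon (mem_filter.1 h8).2
        rw [hout v h7] at h6
        exact lt_irrefl _ h6
    · exfalso
      refine hzero P (fun v => hmem v fun hv => hne ⟨v, hv⟩) h

section
variable {V E A : Type} [Fintype V] [DecidableEq V] [Fintype E] [Fintype A] [DecidableEq A]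

theorem ds_nonneg (s : E → V) (ω : E → ℝ) (hω : ∀ e, 0 ≤ ω e) (v : V) : 0 ≤ ds s ω v :=
  sum_nonneg fun e _ => by split_ifs; exacts [hω e, le_rfl]

theorem ds_sum (s : E → V) (ω : E → ℝ) (f : V → ℝ) :
    ∑ u, ds s ω u * f u = ∑ e, ω e * f (s e) := by
  unfold ds
  have h1 : ∀ u, (∑ e, if s e = u then ω e else 0) * f u =
      ∑ e, if s e = u then ω e * f u else 0 := by
    intro u
    rw [sum_mul]
    exact sum_congr rfl fun e _ => by split_ifs <;> simp
  rw [sum_congr rfl fun u _ => h1 u, sum_comm]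
  refine sum_congr rfl fun e _ => ?_
  rw [sum_ite_eq, if_pos (mem_univ _)]

/-- rounding of one part -/
theorem part_round {Q : ℕ → (((V → A) → ℝ) →ₗ[ℝ] ℝ) → Prop} (hQ : Hier Q)
    (hT : ∀ k L, Q k L → Tri L) (s t : E → V) (π : E → Equiv.Perm A) (ω : E → ℝ)
    (hω : ∀ e, 0 ≤ ω e) (hD : 0 < ∑ e, ω e) (n : ℕ) (hn : 0 < n) (κ q ε0 τ : ℝ) (hκ : 0 < κ)
    (hκ1 : κ < 1) (hq : 0 < q) (hq1 : q ≤ 1) (hε : 0 < ε0) (hτ : 12288 * ε0 ≤ τ)
    (hτ1 : τ ≤ 1 / 2) (k : ℕ)
    (hk : 2 ≤ k * ((1 / 32) ^ 2 / 64 * (Real.exp (-(4 * τ * (Real.log (1 / q) / κ + 1))) *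
      (n : ℝ) ^ (-q))))
    (L : ((V → A) → ℝ) →ₗ[ℝ] ℝ) (hL : Q k L)
    (hloc : ∀ e, 0 < ω e → 1 - L (sat (s e) (t e) (π e)) ≤ ε0)
    (U0 : Finset V) (hU0 : U0.card ≤ n)
    (hU : (∑ e, ω e) / 2 ≤ bil (K2 s t ω) (fun v => if v ∈ U0 then 1 else 0)
      (fun v => if v ∈ U0 then 1 else 0)) :
    ∃ (x : V → A) (S : Finset V), S.Nonempty ∧ S ⊆ U0 ∧
      (n : ℝ) ^ (-(2 * κ)) / 1024 * ∑ u ∈ S, ds s ω u ≤
        PS t ω fun e e' => if (s e ∈ S ∧ s e' ∈ S) ∧ π e (x (s e)) = π e' (x (s e')) then 1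
          else 0 := by
  classical
  have hn0 : (0 : ℝ) < n := by exact_mod_cast hn
  set K := K2 s t ω with hKd
  have hK : IsKer K := isKer_K2 s t ω hω
  set D := ∑ e, ω e with hDd
  set T : V → ℝ := ds s ω with hTd
  have hT0 : ∀ u, 0 ≤ T u := ds_nonneg s ω hω
  have hTs : ∑ u, T u = D := by
    have := ds_sum s ω fun _ => 1
    simpa using this
  set ρ : V → ℝ := fun u => T u / D + 1 / n with hρd
  have hρ : ∀ v, 0 < ρ v := fun v => add_pos_of_nonneg_of_pos (div_nonneg (hT0 v) hD.le)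
    (by positivity)
  obtain ⟨F, hF, hF0, hN, hΘ, hbig, hH⟩ := part_exists hK ρ hρ U0 κ hκ hκ1
    (lt_of_lt_of_le (by linarith) hU)
  set Θ := bil K F F with hΘd
  set p : ℝ := 2 / (1 + κ) with hp
  have hp1 : 1 < p := by rw [hp, lt_div_iff₀ (by linarith)]; linarith
  have hpk : p * (1 + κ) = 2 := by rw [hp]; field_simp
  -- size of the part
  have hΘD : D / 8 ≤ Θ := by
    have h1 : ∑ v ∈ U0, ρ v ≤ 2 := by
      simp only [hρd]
      rw [sum_add_distrib, sum_const, ← sum_div, nsmul_eq_mul]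
      have h2 : ∑ v ∈ U0, T v ≤ D := by
        rw [← hTs]
        exact sum_le_sum_of_subset_of_nonneg (subset_univ _) fun v _ _ => hT0 v
      have h3 : (∑ v ∈ U0, T v) / D ≤ 1 := by rw [div_le_one hD]; exact h2
      have h4 : (U0.card : ℝ) * (1 / n) ≤ 1 := by
        rw [mul_one_div, div_le_one hn0]
        exact_mod_cast hU0
      linarith
    have h0 : 0 ≤ ∑ v ∈ U0, ρ v := sum_nonneg fun v _ => (hρ v).le
    have h2 : (∑ v ∈ U0, ρ v) ^ (1 + κ) ≤ 4 := by
      calc (∑ v ∈ U0, ρ v) ^ (1 + κ) ≤ (2 : ℝ) ^ (1 + κ) :=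
            Real.rpow_le_rpow h0 h1 (by linarith)
        _ ≤ (2 : ℝ) ^ (2 : ℝ) := Real.rpow_le_rpow_of_exponent_le (by norm_num) (by linarith)
        _ = 4 := by norm_num
    have h3 : Θ * (∑ v ∈ U0, ρ v) ^ (1 + κ) ≤ Θ * 4 := mul_le_mul_of_nonneg_left h2 hΘ.le
    linarith
  -- the mass of the squares
  have hsqF : ∀ u, F u ^ 2 ≤ F u ^ p * (n : ℝ) ^ κ := by
    intro u
    have h1 : F u ^ p ≤ n := by
      have h2 : ρ u * F u ^ p ≤ 1 := by
        rw [← hN]
        exact single_le_sum (f := fun v => ρ v * F v ^ p)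
          (fun v _ => mul_nonneg (hρ v).le (Real.rpow_nonneg (hF v) _)) (mem_univ u)
      have h3 : 1 / (n : ℝ) * F u ^ p ≤ ρ u * F u ^ p := by
        refine mul_le_mul_of_nonneg_right ?_ (Real.rpow_nonneg (hF u) _)
        have := div_nonneg (hT0 u) hD.le
        simp only [hρd]
        linarith
      have h4 : 1 / (n : ℝ) * F u ^ p ≤ 1 := h3.trans h2
      rw [one_div_mul_eq_div, div_le_one hn0] at h4
      exact h4
    rcases (hF u).eq_or_lt with h0 | h0
    · rw [← h0, Real.zero_rpow (by linarith)]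
      simp
    · have h5 : F u ^ 2 = F u ^ p * (F u ^ p) ^ κ := by
        have h6 : F u ^ p * (F u ^ p) ^ κ = (F u ^ p) ^ (1 + κ) := by
          rw [Real.rpow_add (Real.rpow_pos_of_pos h0 _), Real.rpow_one]
        rw [h6, ← Real.rpow_mul h0.le, hpk]
        norm_num
      rw [h5]
      exact mul_le_mul_of_nonneg_left (Real.rpow_le_rpow (Real.rpow_nonneg h0.le _) h1 hκ.le)
        (Real.rpow_nonneg h0.le _)
  have hnk : 0 < (n : ℝ) ^ κ := Real.rpow_pos_of_pos hn0 _
  have hM : ∑ u, T u * F u ^ 2 ≤ D * (n : ℝ) ^ κ := by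
    calc ∑ u, T u * F u ^ 2 ≤ ∑ u, D * (n : ℝ) ^ κ * (ρ u * F u ^ p) := by
          refine sum_le_sum fun u _ => ?_
          have h1 : T u ≤ D * ρ u := by
            simp only [hρd]
            rw [mul_add, mul_div_cancel₀ _ hD.ne']
            have : 0 ≤ D * (1 / n) := by positivity
            linarith
          have h2 : 0 ≤ F u ^ p * (n : ℝ) ^ κ :=
            mul_nonneg (Real.rpow_nonneg (hF u) _) hnk.le
          calc T u * F u ^ 2 ≤ T u * (F u ^ p * (n : ℝ) ^ κ) :=
                mul_le_mul_of_nonneg_left (hsqF u) (hT0 u)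
            _ ≤ D * ρ u * (F u ^ p * (n : ℝ) ^ κ) := mul_le_mul_of_nonneg_right h1 h2
            _ = _ := by ring
      _ = D * (n : ℝ) ^ κ := by rw [← mul_sum, hN, mul_one]
  -- conditioning
  set m : V → ℝ := fun u => ∑ v, kf K F u v with hmd
  have hker := isKer_kf hK F hF
  have hm : ∀ u, 0 ≤ m u := fun u => sum_nonneg fun v _ => hker.nonneg u v
  have hmt : ∑ u, m u = Θ := rfl
  set g : ℝ := Real.exp (-(4 * τ * (Real.log (1 / q) / κ + 1))) * (n : ℝ) ^ (-q) with hgd
  have hg : 0 ≤ g := mul_nonneg (Real.exp_pos _).le (Real.rpow_nonneg hn0.le _)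
  have hτ0 : 0 ≤ τ := by linarith
  have hcardm : (univ.filter fun v => 0 < m v).card ≤ n := by
    refine le_trans (card_le_card fun v hv => ?_) hU0
    by_contra hcon
    have h1 := (mem_filter.1 hv).2
    have h2 : m v = 0 := by
      refine sum_eq_zero fun w _ => ?_
      unfold kf
      rw [hF0 v hcon]
      ring
    rw [h2] at h1
    exact lt_irrefl _ h1
  have hGC : GCP (kf K F) m τ g := by
    intro J _ U hpos hen
    exact gcx0 (kf K F) hker m (fun u => rfl) κ τ q n hκ hκ1 hτ0 hτ1 hq hq1 hcardm hH U hpos hen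
  have hα := al_nonneg s t ω hω F hF
  have hErr : ErrW s t π (al s t ω F) L ≤ ε0 * ∑ v, m v := by
    rw [hmt, hΘd, hKd, ← al_total, mul_sum]
    unfold ErrW
    refine sum_le_sum fun e _ => ?_
    rcases (hω e).eq_or_lt with h0 | h0
    · have h1 : al s t ω F e = 0 := by
        unfold al
        have h2 : ∀ e', pw t ω e e' * F (s e') = 0 := by
          intro e'
          unfold pw
          rw [← h0]
          split_ifs <;> simp
        rw [sum_congr rfl fun e' _ => h2 e', sum_const_zero, mul_zero]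
      rw [h1]
      simp
    · rw [mul_comm ε0]
      exact mul_le_mul_of_nonneg_left (hloc e h0) (hα e)
  obtain ⟨L', hL', hPhi, hErr'⟩ := s2g hQ s t π (kf K F) m (al s t ω F) τ g (1 / 32) ε0 k hm
    (by rw [hmt]; exact hΘ) hα hg hGC (by norm_num) hε (by linarith) hτ0 hk
    (fun k L hL => eng_le s t π ω hω F hF L (hQ.fct k L hL) (hT k L hL)) 0 L
    (by rw [Nat.zero_add]; exact hL) hErr
  rw [hmt] at hPhi hErr'
  obtain ⟨x, hx⟩ := exists_argmax (hQ.fct 0 L' hL')
  have hviol := viol_le s t π ω hω F hF L' (hQ.fct 0 L' hL') (hT 0 L' hL') x hx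
  have hviol' : PS t ω (fun e e' => F (s e) * F (s e') *
      (if π e (x (s e)) = π e' (x (s e')) then 0 else 1)) ≤ Θ / 2 := by
    refine hviol.trans ?_
    have h1 : PhiM (fun u => ∑ v, kf (K2 s t ω) F u v) L' ≤ 1 / 32 * Θ := hPhi
    have h2 : ε0 * Θ ≤ 1 / 32 * Θ := mul_le_mul_of_nonneg_right (by linarith) hΘ.le
    nlinarith
  set c : E × E → ℝ := fun i => pw t ω i.1 i.2 *
    (if π i.1 (x (s i.1)) = π i.2 (x (s i.2)) then 1 else 0) with hcd
  have hc0 : ∀ i, 0 ≤ c i := fun i => mul_nonneg (pw_nonneg t ω hω _ _) (by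
    split_ifs <;> norm_num)
  have hgood : Θ / 2 ≤ ∑ i, c i * (F (s i.1) * F (s i.2)) := by
    have h1 : Θ = PS t ω (fun e e' => F (s e) * F (s e') *
        (if π e (x (s e)) = π e' (x (s e')) then 0 else 1)) +
        ∑ i, c i * (F (s i.1) * F (s i.2)) := by
      rw [hΘd, hKd, bil_K2, Fintype.sum_prod_type]
      unfold PS
      rw [← sum_add_distrib]
      refine sum_congr rfl fun e _ => ?_
      rw [← sum_add_distrib]
      refine sum_congr rfl fun e' _ => ?_
      simp only [hcd]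
      split_ifs <;> ring
    linarith
  have hcs : (∑ i, c i * (F (s i.1) * F (s i.2))) ^ 2 ≤
      (∑ i, c i * min (F (s i.1) ^ 2) (F (s i.2) ^ 2)) *
        ∑ i, c i * max (F (s i.1) ^ 2) (F (s i.2) ^ 2) := by
    refine sum_sq_le_sum_mul_sum_of_sq_le_mul _ (fun i _ => mul_nonneg (hc0 i)
      (le_min (sq_nonneg _) (sq_nonneg _))) (fun i _ => mul_nonneg (hc0 i)
      (le_trans (sq_nonneg _) (le_max_left _ _))) fun i _ => le_of_eq ?_
    have := min_mul_max (F (s i.1) ^ 2) (F (s i.2) ^ 2)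
    calc (c i * (F (s i.1) * F (s i.2))) ^ 2 = c i ^ 2 * (F (s i.1) ^ 2 * F (s i.2) ^ 2) := by
          ring
      _ = c i ^ 2 * (min (F (s i.1) ^ 2) (F (s i.2) ^ 2) * max (F (s i.1) ^ 2) (F (s i.2) ^ 2)) := by
          rw [this]
      _ = _ := by ring
  have hmax2 : ∑ i, c i * max (F (s i.1) ^ 2) (F (s i.2) ^ 2) ≤ 2 * (∑ u, T u * F u ^ 2) := by
    have h1 : ∑ i, c i * max (F (s i.1) ^ 2) (F (s i.2) ^ 2) ≤
        PS t ω (fun e e' => F (s e) ^ 2 + F (s e') ^ 2) := by
      rw [Fintype.sum_prod_type]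
      unfold PS
      refine sum_le_sum fun e _ => sum_le_sum fun e' _ => ?_
      have h2 : max (F (s e) ^ 2) (F (s e') ^ 2) ≤ F (s e) ^ 2 + F (s e') ^ 2 :=
        max_le (by linarith [sq_nonneg (F (s e'))]) (by linarith [sq_nonneg (F (s e))])
      have h3 : 0 ≤ max (F (s e) ^ 2) (F (s e') ^ 2) := le_trans (sq_nonneg _) (le_max_left _ _)
      have h4 := pw_nonneg t ω hω e e'
      simp only [hcd]
      split_ifs
      · rw [mul_one]
        exact mul_le_mul_of_nonneg_left h2 h4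
      · rw [mul_zero, zero_mul]
        exact mul_nonneg h4 (h3.trans h2)
    refine h1.trans (le_of_eq ?_)
    rw [PS_add, PS_left t ω hω fun e => F (s e) ^ 2,
      PS_comm t ω fun e _ => F (s e) ^ 2, PS_left t ω hω fun e => F (s e) ^ 2,
      ← ds_sum s ω fun u => F u ^ 2]
    ring
  set X := ∑ i, c i * min (F (s i.1) ^ 2) (F (s i.2) ^ 2) with hXd
  have hX0 : 0 ≤ X := sum_nonneg fun i _ => mul_nonneg (hc0 i)
    (le_min (sq_nonneg _) (sq_nonneg _))
  set M := ∑ u, T u * F u ^ 2 with hMd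
  have hM0 : 0 ≤ M := sum_nonneg fun u _ => mul_nonneg (hT0 u) (sq_nonneg _)
  have hmain : (n : ℝ) ^ (-(2 * κ)) / 1024 * M < X := by
    by_contra hcon
    push Not at hcon
    have h1 : (D / 16) ^ 2 ≤ X * (2 * M) := by
      have h2 : (D / 16) ^ 2 ≤ (∑ i, c i * (F (s i.1) * F (s i.2))) ^ 2 :=
        pow_le_pow_left₀ (by positivity) (by linarith) 2
      exact h2.trans (hcs.trans (mul_le_mul_of_nonneg_left hmax2 hX0))
    have h3 : X * (2 * M) ≤ (n : ℝ) ^ (-(2 * κ)) / 1024 * M * (2 * M) :=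
      mul_le_mul_of_nonneg_right hcon (by linarith)
    have h4 : M * M ≤ (D * (n : ℝ) ^ κ) * (D * (n : ℝ) ^ κ) :=
      mul_le_mul hM hM hM0 (by positivity)
    have h5 : (n : ℝ) ^ (-(2 * κ)) * ((n : ℝ) ^ κ * (n : ℝ) ^ κ) = 1 := by
      rw [← Real.rpow_add hn0, ← Real.rpow_add hn0]
      rw [show -(2 * κ) + (κ + κ) = 0 by ring, Real.rpow_zero]
    have h6 : 0 < (n : ℝ) ^ (-(2 * κ)) := Real.rpow_pos_of_pos hn0 _
    have h7 : (n : ℝ) ^ (-(2 * κ)) / 1024 * M * (2 * M) ≤ D * D / 512 := by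
      calc (n : ℝ) ^ (-(2 * κ)) / 1024 * M * (2 * M) =
            (n : ℝ) ^ (-(2 * κ)) / 512 * (M * M) := by ring
        _ ≤ (n : ℝ) ^ (-(2 * κ)) / 512 * ((D * (n : ℝ) ^ κ) * (D * (n : ℝ) ^ κ)) :=
            mul_le_mul_of_nonneg_left h4 (by positivity)
        _ = (n : ℝ) ^ (-(2 * κ)) * ((n : ℝ) ^ κ * (n : ℝ) ^ κ) * (D * D / 512) := by ring
        _ = _ := by rw [h5, one_mul]
    nlinarith
  obtain ⟨S, hS, hSP, hSb⟩ := layer c (fun i => s i.1) (fun i => s i.2) T
    ((n : ℝ) ^ (-(2 * κ)) / 1024) _ (fun v => F v ^ 2) (fun v => sq_nonneg _) le_rfl hmain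
  refine ⟨x, S, hS, fun v hv => ?_, hSb.trans (le_of_eq ?_)⟩
  · by_contra hcon
    have h1 := hSP v hv
    simp only [hF0 v hcon] at h1
    norm_num at h1
  · rw [Fintype.sum_prod_type]
    unfold PS
    refine sum_congr rfl fun e _ => sum_congr rfl fun e' _ => ?_
    simp only [hcd]
    by_cases h1 : π e (x (s e)) = π e' (x (s e'))
    · by_cases h2 : s e ∈ S ∧ s e' ∈ S
      · rw [if_pos h1, if_pos h2, if_pos ⟨h2, h1⟩]; ring
      · rw [if_pos h1, if_neg h2, if_neg fun h => h2 h.1]; ring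
    · rw [if_neg h1, if_neg (fun h => h1 h.2 : ¬ ((s e ∈ S ∧ s e' ∈ S) ∧ _))]; ring

end

end Pool.Agent.TH522.US
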