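import Pool.Agent.TH522.US.Kernel

/-!
The variational choice of a soft part: a maximiser of the quotient of the retained mass and the
square of an `L^p` norm, `p = 2 / (1 + κ)`.
-/

namespace Pool.Agent.TH522.US

open Finset Pool.Agent.H647R3.UG Pool.Agent.H573R3.SL

/-- the unit vector at `v` -/
def ev {V : Type} [DecidableEq V] (v : V) : V → ℝ := fun u => if u = v then 1 else 0

/-- the kernel with amplitude `F` -/
def kf {V : Type} (K : V → V → ℝ) (F : V → ℝ) : V → V → ℝ := fun u v => K u v * (F u * F v)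

section
variable {V : Type} [Fintype V] {K : V → V → ℝ}

theorem bil_smul (c : ℝ) (f g : V → ℝ) :
    bil K (fun v => c * f v) (fun v => c * g v) = c ^ 2 * bil K f g := by
  unfold bil
  rw [mul_sum]
  refine sum_congr rfl fun u _ => ?_
  rw [mul_sum]
  exact sum_congr rfl fun v _ => by ring

theorem bil_kf (F f g : V → ℝ) :
    bil (kf K F) f g = bil K (fun v => F v * f v) (fun v => F v * g v) := by
  unfold bil kf
  refine sum_congr rfl fun u _ => sum_congr rfl fun v _ => by ring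

theorem isKer_kf (hK : IsKer K) (F : V → ℝ) (hF : ∀ v, 0 ≤ F v) : IsKer (kf K F) where
  nonneg u v := mul_nonneg (hK.nonneg u v) (mul_nonneg (hF u) (hF v))
  symm u v := by unfold kf; rw [hK.symm u v]; ring
  psd f := by rw [bil_kf]; exact hK.psd _

variable [DecidableEq V]

theorem bil_ev_right (f : V → ℝ) (v : V) : bil K f (ev v) = ∑ u, K u v * f u := by
  unfold bil ev
  refine sum_congr rfl fun u _ => ?_
  rw [sum_eq_single v]
  · simp
  · intro w _ hw; simp [hw]
  · intro h; exact absurd (mem_univ v) h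

/-- existence of a maximiser -/
theorem exists_max (ρ : V → ℝ) (hρ : ∀ v, 0 < ρ v) (U0 : Finset V) (κ : ℝ)
    (hκ : 0 < κ) (hκ1 : κ < 1) (hne : U0.Nonempty) :
    ∃ F : V → ℝ, (∀ v, 0 ≤ F v) ∧ (∀ v, v ∉ U0 → F v = 0) ∧
      ∑ v, ρ v * F v ^ (2 / (1 + κ)) = 1 ∧
      ∀ g : V → ℝ, (∀ v, 0 ≤ g v) → (∀ v, v ∉ U0 → g v = 0) →
        bil K g g ≤ bil K F F * (∑ v, ρ v * g v ^ (2 / (1 + κ))) ^ (1 + κ) := by
  set p : ℝ := 2 / (1 + κ) with hp
  have hp1 : 1 < p := by rw [hp, lt_div_iff₀ (by linarith)]; linarith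
  have hp0 : 0 < p := by linarith
  have hpk : 1 / p * 2 = 1 + κ := by
    rw [hp]; field_simp
  set S : Set (V → ℝ) := {g | (∀ v, 0 ≤ g v) ∧ (∀ v, v ∉ U0 → g v = 0) ∧
    ∑ v, ρ v * g v ^ p = 1} with hS
  have hcont : Continuous fun g : V → ℝ => ∑ v, ρ v * g v ^ p :=
    continuous_finsetSum _ fun v _ => continuous_const.mul
      ((Real.continuous_rpow_const hp0.le).comp (continuous_apply v))
  have hclosed : IsClosed S := by
    have e : S = (⋂ v : V, {g : V → ℝ | 0 ≤ g v}) ∩ ((⋂ v : V, {g : V → ℝ | v ∉ U0 → g v = 0}) ∩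
        {g : V → ℝ | ∑ v, ρ v * g v ^ p = 1}) := by
      ext g
      simp only [hS, Set.mem_inter_iff, Set.mem_iInter, Set.mem_ofPred_eq]
    rw [e]
    refine IsClosed.inter (isClosed_iInter fun v => isClosed_le continuous_const
      (continuous_apply v)) (IsClosed.inter (isClosed_iInter fun v => ?_)
      (isClosed_eq hcont continuous_const))
    by_cases hv : v ∈ U0
    · have : {g : V → ℝ | v ∉ U0 → g v = 0} = Set.univ := by
        ext g; simp [hv]
      rw [this]; exact isClosed_univ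
    · have : {g : V → ℝ | v ∉ U0 → g v = 0} = {g : V → ℝ | g v = 0} := by
        ext g; simp [hv]
      rw [this]; exact isClosed_eq (continuous_apply v) continuous_const
  have hcomp : IsCompact S := by
    have h1 : IsCompact (Set.pi Set.univ fun v : V => Set.Icc (0 : ℝ) (1 + 1 / ρ v)) :=
      isCompact_univ_pi fun _ => isCompact_Icc
    refine h1.of_isClosed_subset hclosed ?_
    intro g hg
    rw [Set.mem_univ_pi]
    intro v
    refine ⟨hg.1 v, ?_⟩
    have h2 : ρ v * g v ^ p ≤ 1 := by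
      rw [← hg.2.2]
      exact single_le_sum (f := fun v => ρ v * g v ^ p)
        (fun u _ => mul_nonneg (hρ u).le (Real.rpow_nonneg (hg.1 u) _)) (mem_univ v)
    have h3 : g v ^ p ≤ 1 / ρ v := by
      rw [le_div_iff₀ (hρ v)]
      linarith
    have h4 : 0 < 1 / ρ v := one_div_pos.2 (hρ v)
    rcases le_total (g v) 1 with h | h
    · linarith
    · have h5 : g v ≤ g v ^ p := by
        conv_lhs => rw [← Real.rpow_one (g v)]
        exact Real.rpow_le_rpow_of_exponent_le h hp1.le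
      linarith
  -- normalisation
  have hnorm : ∀ g : V → ℝ, (∀ v, 0 ≤ g v) → (∀ v, v ∉ U0 → g v = 0) →
      0 < ∑ v, ρ v * g v ^ p →
      (fun v => (∑ v, ρ v * g v ^ p) ^ (-(1 / p)) * g v) ∈ S := by
    intro g hg hg0 hN
    set N := ∑ v, ρ v * g v ^ p with hNd
    have hNp : 0 < N ^ (-(1 / p)) := Real.rpow_pos_of_pos hN _
    refine ⟨fun v => mul_nonneg hNp.le (hg v), fun v hv => by
      show N ^ (-(1 / p)) * g v = 0
      rw [hg0 v hv, mul_zero], ?_⟩
    have h1 : ∀ v, ρ v * (N ^ (-(1 / p)) * g v) ^ p = N⁻¹ * (ρ v * g v ^ p) := by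
      intro v
      rw [Real.mul_rpow hNp.le (hg v), ← Real.rpow_mul hN.le,
        show -(1 / p) * p = -1 by field_simp, Real.rpow_neg_one]
      ring
    rw [sum_congr rfl fun v _ => h1 v, ← mul_sum, ← hNd, inv_mul_cancel₀ hN.ne']
  have hSne : S.Nonempty := by
    obtain ⟨v0, hv0⟩ := hne
    have h0 : ∀ v, 0 ≤ ev v0 v := fun v => by unfold ev; split_ifs <;> norm_num
    refine ⟨_, hnorm (ev v0) h0 ?_ ?_⟩
    · intro v hv
      unfold ev
      rw [if_neg]
      rintro rfl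
      exact hv hv0
    · refine sum_pos' (fun v _ => mul_nonneg (hρ v).le (Real.rpow_nonneg (h0 v) _))
        ⟨v0, mem_univ _, ?_⟩
      unfold ev
      rw [if_pos rfl, Real.one_rpow, mul_one]
      exact hρ v0
  have hbil : Continuous fun g : V → ℝ => bil K g g :=
    continuous_finsetSum _ fun u _ => continuous_finsetSum _ fun v _ =>
      continuous_const.mul ((continuous_apply u).mul (continuous_apply v))
  obtain ⟨F, hF, hmax⟩ := hcomp.exists_isMaxOn hSne hbil.continuousOn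
  refine ⟨F, hF.1, hF.2.1, hF.2.2, fun g hg hg0 => ?_⟩
  have hN0 : 0 ≤ ∑ v, ρ v * g v ^ p :=
    sum_nonneg fun v _ => mul_nonneg (hρ v).le (Real.rpow_nonneg (hg v) _)
  rcases hN0.eq_or_lt with h0 | hN
  · have hz : ∀ v, g v = 0 := by
      intro v
      have h1 := (sum_eq_zero_iff_of_nonneg (fun v _ => mul_nonneg (hρ v).le
        (Real.rpow_nonneg (hg v) p))).1 h0.symm v (mem_univ v)
      rcases mul_eq_zero.1 h1 with h2 | h2
      · exact absurd h2 (hρ v).ne'
      · exact (Real.rpow_eq_zero (hg v) hp0.ne').1 h2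
    have h1 : bil K g g = 0 := by
      unfold bil
      exact sum_eq_zero fun u _ => sum_eq_zero fun v _ => by rw [hz u]; ring
    rw [h1, ← h0, Real.zero_rpow (by linarith), mul_zero]
  · have h1 := hmax (hnorm g hg hg0 hN)
    simp only [Set.mem_ofPred_eq] at h1
    rw [bil_smul] at h1
    set N := ∑ v, ρ v * g v ^ p with hNd
    have h2 : (N ^ (-(1 / p))) ^ 2 = (N ^ (1 + κ))⁻¹ := by
      rw [← Real.rpow_natCast, ← Real.rpow_mul hN.le, ← Real.rpow_neg hN.le]
      congr 1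
      push_cast
      linarith
    rw [h2, inv_mul_le_iff₀ (Real.rpow_pos_of_pos hN _)] at h1
    linarith

/-- the Euler-Lagrange equation -/
theorem euler (hK : IsKer K) (ρ : V → ℝ) (U0 : Finset V) (κ : ℝ)
    (hκ : 0 < κ) (hκ1 : κ < 1) (F : V → ℝ) (hF : ∀ v, 0 ≤ F v) (hF0 : ∀ v, v ∉ U0 → F v = 0)
    (hN : ∑ v, ρ v * F v ^ (2 / (1 + κ)) = 1)
    (hmax : ∀ g : V → ℝ, (∀ v, 0 ≤ g v) → (∀ v, v ∉ U0 → g v = 0) →
        bil K g g ≤ bil K F F * (∑ v, ρ v * g v ^ (2 / (1 + κ))) ^ (1 + κ)) (v : V) :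
    F v * ∑ u, K v u * F u = bil K F F * (ρ v * F v ^ (2 / (1 + κ))) := by
  set p : ℝ := 2 / (1 + κ) with hp
  have hp1 : 1 < p := by rw [hp, lt_div_iff₀ (by linarith)]; linarith
  have hpk : p * (1 + κ) = 2 := by rw [hp]; field_simp
  rcases (hF v).eq_or_lt with h0 | h0
  · rw [← h0, Real.zero_rpow (by linarith)]
    ring
  set Θ := bil K F F with hΘ
  have hvU : v ∈ U0 := by
    by_contra h
    exact h0.ne' (hF0 v h)
  -- the function of one variable
  have hA : ∀ t : ℝ, ∑ u, ρ u * (F u + t * ev v u) ^ p = 1 + ρ v * ((F v + t) ^ p - F v ^ p) := by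
    intro t
    have h1 : ∑ u, (ρ u * (F u + t * ev v u) ^ p - ρ u * F u ^ p) =
        ρ v * ((F v + t) ^ p - F v ^ p) := by
      rw [sum_eq_single v]
      · unfold ev
        rw [if_pos rfl, mul_one]
        ring
      · intro u _ hu
        unfold ev
        rw [if_neg hu, mul_zero, add_zero, sub_self]
      · intro h; exact absurd (mem_univ v) h
    rw [sum_sub_distrib, hN] at h1
    linarith
  set φ : ℝ → ℝ := fun t => Θ * (1 + ρ v * ((F v + t) ^ p - F v ^ p)) ^ (1 + κ) -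
    (bil K (ev v) (ev v) * (t * t) + 2 * bil K F (ev v) * t + Θ) with hφ
  have hφ0 : φ 0 = 0 := by
    simp only [hφ, add_zero, sub_self, mul_zero, Real.one_rpow, mul_one, zero_add]
  have hφn : ∀ t : ℝ, -F v < t → 0 ≤ φ t := by
    intro t ht
    have h1 := hmax (fun u => F u + t * ev v u) (fun u => by
      unfold ev
      split_ifs with h
      · rw [h]; linarith
      · rw [mul_zero, add_zero]; exact hF u) (fun u hu => by
      have h2 : u ≠ v := fun h => hu (h ▸ hvU)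
      unfold ev
      rw [if_neg h2, hF0 u hu]
      ring)
    rw [hA, bil_quad hK] at h1
    simp only [hφ]
    linarith
  have hmin : IsLocalMin φ 0 := by
    have h1 : ∀ᶠ t in nhds (0 : ℝ), -F v < t := lt_mem_nhds (by linarith)
    filter_upwards [h1] with t ht
    rw [hφ0]
    exact hφn t ht
  have hd1 : HasDerivAt (fun t : ℝ => (F v + t) ^ p) (1 * p * (F v + 0) ^ (p - 1)) 0 := by
    have h1 : HasDerivAt (fun t : ℝ => F v + t) 1 0 := (hasDerivAt_id (0 : ℝ)).const_add (F v)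
    exact h1.rpow_const (Or.inr hp1.le)
  have hd2 : HasDerivAt (fun t : ℝ => 1 + ρ v * ((F v + t) ^ p - F v ^ p))
      (ρ v * (1 * p * (F v + 0) ^ (p - 1))) 0 :=
    ((hd1.sub_const (F v ^ p)).const_mul (ρ v)).const_add 1
  have hd3 : HasDerivAt (fun t : ℝ => (1 + ρ v * ((F v + t) ^ p - F v ^ p)) ^ (1 + κ))
      (ρ v * (1 * p * (F v + 0) ^ (p - 1)) * (1 + κ) *
        (1 + ρ v * ((F v + 0) ^ p - F v ^ p)) ^ (1 + κ - 1)) 0 :=
    hd2.rpow_const (Or.inr (by linarith))
  have hd4 : HasDerivAt (fun t : ℝ => bil K (ev v) (ev v) * (t * t) + 2 * bil K F (ev v) * t + Θ)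
      (bil K (ev v) (ev v) * (1 * 0 + 0 * 1) + 2 * bil K F (ev v) * 1) 0 := by
    have h1 : HasDerivAt (fun t : ℝ => t * t) (1 * 0 + 0 * 1) 0 :=
      (hasDerivAt_id (0 : ℝ)).mul (hasDerivAt_id (0 : ℝ))
    have h2 : HasDerivAt (fun t : ℝ => 2 * bil K F (ev v) * t) (2 * bil K F (ev v) * 1) 0 :=
      (hasDerivAt_id (0 : ℝ)).const_mul _
    exact ((h1.const_mul _).add h2).add_const Θ
  have hd5 := (hd3.const_mul Θ).sub hd4
  have hzero := hmin.hasDerivAt_eq_zero hd5
  simp only [add_zero, sub_self, mul_zero, Real.one_rpow, mul_one, one_mul, zero_add] at hzero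
  rw [bil_ev_right] at hzero
  have h1 : ∑ u, K v u * F u = Θ * (ρ v * F v ^ (p - 1)) := by
    have h2 : ∑ u, K u v * F u = ∑ u, K v u * F u :=
      sum_congr rfl fun u _ => by rw [hK.symm u v]
    rw [h2] at hzero
    have h3 : Θ * (ρ v * (p * F v ^ (p - 1)) * (1 + κ)) = 2 * (Θ * (ρ v * F v ^ (p - 1))) := by
      calc Θ * (ρ v * (p * F v ^ (p - 1)) * (1 + κ)) =
            (p * (1 + κ)) * (Θ * (ρ v * F v ^ (p - 1))) := by ring
        _ = _ := by rw [hpk]
    linarith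
  rw [h1]
  have h2 : F v ^ p = F v ^ (p - 1) * F v := by
    conv_lhs => rw [show p = (p - 1) + 1 by ring]
    rw [Real.rpow_add h0, Real.rpow_one]
  rw [h2]
  ring

/-- the soft part of largest quotient and its functional inequality -/
theorem part_exists (hK : IsKer K) (ρ : V → ℝ) (hρ : ∀ v, 0 < ρ v) (U0 : Finset V) (κ : ℝ)
    (hκ : 0 < κ) (hκ1 : κ < 1)
    (hpos : 0 < bil K (fun v => if v ∈ U0 then 1 else 0) (fun v => if v ∈ U0 then 1 else 0)) :
    ∃ F : V → ℝ, (∀ v, 0 ≤ F v) ∧ (∀ v, v ∉ U0 → F v = 0) ∧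
      ∑ v, ρ v * F v ^ (2 / (1 + κ)) = 1 ∧ 0 < bil K F F ∧
      bil K (fun v => if v ∈ U0 then 1 else 0) (fun v => if v ∈ U0 then 1 else 0) ≤
        bil K F F * (∑ v ∈ U0, ρ v) ^ (1 + κ) ∧
      ∀ g : V → ℝ, (∀ v, 0 ≤ g v) → bil (kf K F) g g ≤
        (∑ u, ∑ v, kf K F u v) ^ (-κ) *
          (∑ u, (∑ v, kf K F u v) * g u ^ (2 / (1 + κ))) ^ (1 + κ) := by
  have hne : U0.Nonempty := by
    by_contra h
    rw [not_nonempty_iff_eq_empty] at h
    rw [h] at hpos
    simp [bil] at hpos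
  obtain ⟨F, hF, hF0, hN, hmax⟩ := exists_max (K := K) ρ hρ U0 κ hκ hκ1 hne
  have hE := euler hK ρ U0 κ hκ hκ1 F hF hF0 hN hmax
  set p : ℝ := 2 / (1 + κ) with hp
  have hp1 : 1 < p := by rw [hp, lt_div_iff₀ (by linarith)]; linarith
  have h1 : bil K (fun v => if v ∈ U0 then 1 else 0) (fun v => if v ∈ U0 then 1 else 0) ≤
        bil K F F * (∑ v ∈ U0, ρ v) ^ (1 + κ) := by
    refine (hmax _ (fun v => by split_ifs <;> norm_num) (fun v hv => by rw [if_neg hv])).trans
      (le_of_eq ?_)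
    congr 2
    have h2 : ∀ v, ρ v * (if v ∈ U0 then (1 : ℝ) else 0) ^ p = if v ∈ U0 then ρ v else 0 := by
      intro v
      split_ifs
      · rw [Real.one_rpow, mul_one]
      · rw [Real.zero_rpow (by linarith), mul_zero]
    rw [sum_congr rfl fun v _ => h2 v, sum_ite_mem, univ_inter]
  have hρU : 0 < ∑ v ∈ U0, ρ v := sum_pos (fun v _ => hρ v) hne
  have hΘ : 0 < bil K F F := by
    by_contra hcon
    push Not at hcon
    have h2 : bil K F F * (∑ v ∈ U0, ρ v) ^ (1 + κ) ≤ 0 :=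
      mul_nonpos_of_nonpos_of_nonneg hcon (Real.rpow_pos_of_pos hρU _).le
    linarith
  refine ⟨F, hF, hF0, hN, hΘ, h1, fun g hg => ?_⟩
  set Θ := bil K F F with hΘd
  have hrow : ∀ u, ∑ v, kf K F u v = Θ * (ρ u * F u ^ p) := by
    intro u
    rw [← hE u, mul_sum]
    unfold kf
    exact sum_congr rfl fun v _ => by ring
  have htot : ∑ u, ∑ v, kf K F u v = Θ := by
    rw [sum_congr rfl fun u _ => hrow u, ← mul_sum, hN, mul_one]
  rw [htot, bil_kf]
  refine (hmax _ (fun v => mul_nonneg (hF v) (hg v)) (fun v hv => by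
    rw [hF0 v hv, zero_mul])).trans (le_of_eq ?_)
  have h2 : ∑ v, ρ v * (F v * g v) ^ p = Θ⁻¹ * ∑ u, (∑ v, kf K F u v) * g u ^ p := by
    rw [mul_sum]
    refine sum_congr rfl fun v _ => ?_
    rw [hrow, Real.mul_rpow (hF v) (hg v)]
    field_simp
  have hS : 0 ≤ ∑ u, (∑ v, kf K F u v) * g u ^ p := sum_nonneg fun u _ =>
    mul_nonneg (by
      rw [hrow]
      exact mul_nonneg hΘ.le (mul_nonneg (hρ u).le (Real.rpow_nonneg (hF u) _)))
      (Real.rpow_nonneg (hg u) _)
  rw [h2, Real.mul_rpow (by positivity) hS, ← mul_assoc]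
  congr 1
  rw [Real.inv_rpow hΘ.le, Real.rpow_add hΘ, Real.rpow_one, Real.rpow_neg hΘ.le]
  field_simp

end

end Pool.Agent.TH522.US
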