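import Pool.Agent.TH522.US.Cond2
import Pool.Agent.TH522.US.Var

/-!
The two-step kernel of a weighted set of edges; energy and rounding of a soft part.
-/

namespace Pool.Agent.TH522.US

open Finset Pool.Agent.H647R3.UG Pool.Agent.H573R3.SL Pool.Agent.TH522.UG

/-- composition of two constraints with a common target -/
def Tri {V A : Type} [DecidableEq A] (L : ((V → A) → ℝ) →ₗ[ℝ] ℝ) : Prop :=
  ∀ (u u' v : V) (π π' : Equiv.Perm A), 1 - L (sat u u' (π.trans π'.symm)) ≤
    (1 - L (sat u v π)) + (1 - L (sat u' v π'))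

section
variable {V E : Type} [Fintype E] [DecidableEq V]

/-- weighted number of edges with target `v` -/
def bd (t : E → V) (ω : E → ℝ) (v : V) : ℝ := ∑ e, if t e = v then ω e else 0

/-- weight of a pair of edges with a common target -/
noncomputable def pw (t : E → V) (ω : E → ℝ) (e e' : E) : ℝ :=
  if t e = t e' then ω e * ω e' / bd t ω (t e) else 0

/-- sum over the pairs of edges -/
noncomputable def PS (t : E → V) (ω : E → ℝ) (Y : E → E → ℝ) : ℝ := ∑ e, ∑ e', pw t ω e e' * Y e e'

/-- the two-step kernel -/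
noncomputable def K2 (s t : E → V) (ω : E → ℝ) (u u' : V) : ℝ :=
  PS t ω fun e e' => (if s e = u then 1 else 0) * (if s e' = u' then 1 else 0)

/-- weighted number of edges with source `u` -/
def ds (s : E → V) (ω : E → ℝ) (u : V) : ℝ := ∑ e, if s e = u then ω e else 0

theorem bd_nonneg (t : E → V) (ω : E → ℝ) (hω : ∀ e, 0 ≤ ω e) (v : V) : 0 ≤ bd t ω v :=
  sum_nonneg fun e _ => by split_ifs; exacts [hω e, le_rfl]

theorem pw_nonneg (t : E → V) (ω : E → ℝ) (hω : ∀ e, 0 ≤ ω e) (e e' : E) : 0 ≤ pw t ω e e' := by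
  unfold pw
  split_ifs
  · exact div_nonneg (mul_nonneg (hω e) (hω e')) (bd_nonneg t ω hω _)
  · exact le_rfl

theorem pw_comm (t : E → V) (ω : E → ℝ) (e e' : E) : pw t ω e e' = pw t ω e' e := by
  unfold pw
  by_cases h : t e = t e'
  · rw [if_pos h, if_pos h.symm, h, mul_comm]
  · rw [if_neg h, if_neg fun h' => h h'.symm]

theorem pw_sum (t : E → V) (ω : E → ℝ) (hω : ∀ e, 0 ≤ ω e) (e : E) :
    ∑ e', pw t ω e e' = ω e := by
  have h1 : ∑ e', pw t ω e e' = ω e * (bd t ω (t e) / bd t ω (t e)) := by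
    have h2 : ω e * (bd t ω (t e) / bd t ω (t e)) =
        ∑ e', ω e * (if t e' = t e then ω e' else 0) / bd t ω (t e) := by
      rw [← sum_div, ← mul_sum, mul_div_assoc]
      rfl
    rw [h2]
    unfold pw
    refine sum_congr rfl fun e' _ => ?_
    by_cases h : t e = t e'
    · rw [if_pos h, if_pos h.symm]
    · rw [if_neg h, if_neg fun h' => h h'.symm]
      simp
  rw [h1]
  rcases (bd_nonneg t ω hω (t e)).eq_or_lt with h | h
  · have h2 : ω e = 0 := by
      have h3 := (sum_eq_zero_iff_of_nonneg (s := (univ : Finset E))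
        (f := fun e' => if t e' = t e then ω e' else 0)
        (fun e' _ => by split_ifs; exacts [hω e', le_rfl])).1 h.symm e (mem_univ e)
      simpa using h3
    rw [h2, zero_mul]
  · rw [div_self h.ne', mul_one]

theorem PS_mono (t : E → V) (ω : E → ℝ) (hω : ∀ e, 0 ≤ ω e) (Y Z : E → E → ℝ)
    (h : ∀ e e', t e = t e' → Y e e' ≤ Z e e') : PS t ω Y ≤ PS t ω Z := by
  refine sum_le_sum fun e _ => sum_le_sum fun e' _ => ?_
  by_cases h1 : t e = t e'
  · exact mul_le_mul_of_nonneg_left (h e e' h1) (pw_nonneg t ω hω e e')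
  · unfold pw
    rw [if_neg h1, zero_mul, zero_mul]

theorem PS_nonneg (t : E → V) (ω : E → ℝ) (hω : ∀ e, 0 ≤ ω e) (Y : E → E → ℝ)
    (h : ∀ e e', 0 ≤ Y e e') : 0 ≤ PS t ω Y :=
  sum_nonneg fun e _ => sum_nonneg fun e' _ => mul_nonneg (pw_nonneg t ω hω e e') (h e e')

theorem PS_add (t : E → V) (ω : E → ℝ) (Y Z : E → E → ℝ) :
    PS t ω (fun e e' => Y e e' + Z e e') = PS t ω Y + PS t ω Z := by
  unfold PS
  rw [← sum_add_distrib]
  refine sum_congr rfl fun e _ => ?_
  rw [← sum_add_distrib]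
  exact sum_congr rfl fun e' _ => by ring

theorem PS_smul (t : E → V) (ω : E → ℝ) (c : ℝ) (Y : E → E → ℝ) :
    PS t ω (fun e e' => c * Y e e') = c * PS t ω Y := by
  unfold PS
  rw [mul_sum]
  refine sum_congr rfl fun e _ => ?_
  rw [mul_sum]
  exact sum_congr rfl fun e' _ => by ring

theorem PS_comm (t : E → V) (ω : E → ℝ) (Y : E → E → ℝ) :
    PS t ω (fun e e' => Y e' e) = PS t ω Y := by
  unfold PS
  rw [sum_comm]
  refine sum_congr rfl fun e _ => sum_congr rfl fun e' _ => ?_
  rw [pw_comm]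

theorem PS_left (t : E → V) (ω : E → ℝ) (hω : ∀ e, 0 ≤ ω e) (y : E → ℝ) :
    PS t ω (fun e _ => y e) = ∑ e, ω e * y e := by
  unfold PS
  refine sum_congr rfl fun e _ => ?_
  rw [← sum_mul, pw_sum t ω hω]

variable [Fintype V]

theorem K2_sum (s t : E → V) (ω : E → ℝ) (X : V → V → ℝ) :
    ∑ u, ∑ u', K2 s t ω u u' * X u u' = PS t ω fun e e' => X (s e) (s e') := by
  unfold K2 PS
  have h1 : ∀ u u', (∑ e, ∑ e', pw t ω e e' * ((if s e = u then 1 else 0) *
      (if s e' = u' then 1 else 0))) * X u u' =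
      ∑ e, ∑ e', (if s e = u then 1 else 0) * ((if s e' = u' then 1 else 0) *
        (pw t ω e e' * X u u')) := by
    intro u u'
    rw [sum_mul]
    refine sum_congr rfl fun e _ => ?_
    rw [sum_mul]
    exact sum_congr rfl fun e' _ => by ring
  simp only [h1]
  have h2 : ∀ u, ∑ u', ∑ e, ∑ e', (if s e = u then (1 : ℝ) else 0) *
      ((if s e' = u' then 1 else 0) * (pw t ω e e' * X u u')) =
      ∑ e, ∑ e', (if s e = u then (1 : ℝ) else 0) * (pw t ω e e' * X u (s e')) := by
    intro u
    rw [sum_comm]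
    refine sum_congr rfl fun e _ => ?_
    rw [sum_comm]
    refine sum_congr rfl fun e' _ => ?_
    rw [← mul_sum]
    congr 1
    simp only [ite_mul, one_mul, zero_mul]
    rw [sum_ite_eq, if_pos (mem_univ _)]
  simp only [h2]
  rw [sum_comm]
  refine sum_congr rfl fun e _ => ?_
  rw [sum_comm]
  refine sum_congr rfl fun e' _ => ?_
  simp only [ite_mul, one_mul, zero_mul]
  rw [sum_ite_eq, if_pos (mem_univ _)]

theorem bil_K2 (s t : E → V) (ω : E → ℝ) (f g : V → ℝ) :
    bil (K2 s t ω) f g = PS t ω fun e e' => f (s e) * g (s e') :=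
  K2_sum s t ω fun u u' => f u * g u'

theorem K2_row (s t : E → V) (ω : E → ℝ) (hω : ∀ e, 0 ≤ ω e) (u : V) :
    ∑ u', K2 s t ω u u' = ds s ω u := by
  have h1 : ∑ u', K2 s t ω u u' = PS t ω fun e _ => if s e = u then 1 else 0 := by
    unfold K2 PS
    rw [sum_comm]
    refine sum_congr rfl fun e _ => ?_
    rw [sum_comm]
    refine sum_congr rfl fun e' _ => ?_
    rw [← mul_sum]
    congr 1
    rw [← mul_sum, sum_ite_eq, if_pos (mem_univ _), mul_one]
  rw [h1, PS_left t ω hω]
  unfold ds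
  refine sum_congr rfl fun e _ => ?_
  split_ifs <;> simp

theorem PS_sq (t : E → V) (ω : E → ℝ) (y : E → ℝ) :
    PS t ω (fun e e' => y e * y e') =
      ∑ v, (∑ e, if t e = v then ω e * y e else 0) ^ 2 / bd t ω v := by
  have h1 : ∀ v, (∑ e, if t e = v then ω e * y e else 0) ^ 2 / bd t ω v =
      ∑ e, ∑ e', (if t e = v then ω e * y e else 0) * (if t e' = v then ω e' * y e' else 0) /
        bd t ω v := by
    intro v
    rw [sq, sum_mul_sum, sum_div]
    refine sum_congr rfl fun e _ => ?_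
    rw [sum_div]
  simp only [h1]
  unfold PS
  symm
  rw [sum_comm]
  refine sum_congr rfl fun e _ => ?_
  rw [sum_comm]
  refine sum_congr rfl fun e' _ => ?_
  have h2 : ∀ v, (if t e = v then ω e * y e else 0) * (if t e' = v then ω e' * y e' else 0) /
        bd t ω v = if t e = v then (if t e' = v then ω e * y e * (ω e' * y e') / bd t ω v else 0)
        else 0 := by
    intro v
    split_ifs <;> simp
  simp only [h2]
  rw [sum_ite_eq, if_pos (mem_univ _)]
  unfold pw
  by_cases h : t e = t e'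
  · rw [if_pos h, if_pos h.symm]
    ring
  · rw [if_neg h, if_neg fun h' => h h'.symm, zero_mul]

theorem isKer_K2 (s t : E → V) (ω : E → ℝ) (hω : ∀ e, 0 ≤ ω e) : IsKer (K2 s t ω) where
  nonneg u v := PS_nonneg t ω hω _ fun e e' => by split_ifs <;> norm_num
  symm u v := by
    unfold K2
    rw [← PS_comm]
    congr 1
    funext e e'
    ring
  psd f := by
    rw [bil_K2, PS_sq]
    exact sum_nonneg fun v _ => div_nonneg (sq_nonneg _) (bd_nonneg t ω hω v)

/-- error weights of the part with amplitude `F` -/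
noncomputable def al (s t : E → V) (ω : E → ℝ) (F : V → ℝ) (e : E) : ℝ :=
  F (s e) * ∑ e', pw t ω e e' * F (s e')

theorem al_nonneg (s t : E → V) (ω : E → ℝ) (hω : ∀ e, 0 ≤ ω e) (F : V → ℝ) (hF : ∀ v, 0 ≤ F v)
    (e : E) : 0 ≤ al s t ω F e :=
  mul_nonneg (hF _) (sum_nonneg fun e' _ => mul_nonneg (pw_nonneg t ω hω e e') (hF _))

theorem al_sum (s t : E → V) (ω : E → ℝ) (F : V → ℝ) (y : E → ℝ) :
    ∑ e, al s t ω F e * y e = PS t ω fun e e' => F (s e) * F (s e') * y e := by
  unfold al PS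
  refine sum_congr rfl fun e _ => ?_
  rw [mul_sum, sum_mul]
  exact sum_congr rfl fun e' _ => by ring

theorem al_total (s t : E → V) (ω : E → ℝ) (F : V → ℝ) :
    ∑ e, al s t ω F e = bil (K2 s t ω) F F := by
  have := al_sum s t ω F fun _ => 1
  simp only [mul_one] at this
  rw [this, bil_K2]

variable {A : Type} [Fintype A] [DecidableEq A]

/-- energy bound -/
theorem eng_le (s t : E → V) (π : E → Equiv.Perm A) (ω : E → ℝ) (hω : ∀ e, 0 ≤ ω e)
    (F : V → ℝ) (hF : ∀ v, 0 ≤ F v) (L : ((V → A) → ℝ) →ₗ[ℝ] ℝ) (hL : Fct L) (hT : Tri L) :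
    Eng (kf (K2 s t ω) F) L ≤ 24 * ErrW s t π (al s t ω F) L := by
  have h1 : Eng (kf (K2 s t ω) F) L = (1 / 2) * PS t ω (fun e e' => F (s e) * F (s e') *
      (kr L (s e) (s e) + kr L (s e') (s e') - 2 * kr L (s e) (s e'))) := by
    unfold Eng kf
    congr 1
    rw [← K2_sum s t ω fun u v => F u * F v * (kr L u u + kr L v v - 2 * kr L u v)]
    exact sum_congr rfl fun u _ => sum_congr rfl fun v _ => by ring
  have hkk : ∀ u, kr L u u = ker (dg (pr L u)) (pr L u) (pr L u) := fun u => by
    unfold kr; rw [hL.diag]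
  have h2 : PS t ω (fun e e' => F (s e) * F (s e') *
      (kr L (s e) (s e) + kr L (s e') (s e') - 2 * kr L (s e) (s e'))) ≤
      PS t ω (fun e e' => 24 * (F (s e) * F (s e') * (1 - L (sat (s e) (t e) (π e))) +
        F (s e') * F (s e) * (1 - L (sat (s e') (t e') (π e'))))) := by
    refine PS_mono t ω hω _ _ fun e e' he => ?_
    have h3 : kr L (s e) (s e) + kr L (s e') (s e') - 2 * kr L (s e) (s e') ≤
        24 * (1 - L (sat (s e) (s e') ((π e).trans (π e').symm))) := by
      rw [hkk, hkk, hL.sat]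
      exact T_RA A _ _ _ _ (hL.law (s e) (s e'))
    have h4 := hT (s e) (s e') (t e) (π e) (π e')
    rw [he] at h4
    have h5 := mul_nonneg (hF (s e)) (hF (s e'))
    have h6 := mul_le_mul_of_nonneg_left (h3.trans (mul_le_mul_of_nonneg_left h4 (by norm_num :
      (0 : ℝ) ≤ 24))) h5
    rw [← he] at h6
    rw [← he]
    linarith
  rw [h1]
  rw [PS_smul, PS_add] at h2
  have h7 : PS t ω (fun e e' => F (s e') * F (s e) * (1 - L (sat (s e') (t e') (π e')))) =
      PS t ω (fun e e' => F (s e) * F (s e') * (1 - L (sat (s e) (t e) (π e)))) :=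
    PS_comm t ω fun e e' => F (s e) * F (s e') * (1 - L (sat (s e) (t e) (π e)))
  rw [h7] at h2
  have h8 : ErrW s t π (al s t ω F) L =
      PS t ω (fun e e' => F (s e) * F (s e') * (1 - L (sat (s e) (t e) (π e)))) :=
    al_sum s t ω F fun e => 1 - L (sat (s e) (t e) (π e))
  rw [h8]
  linarith

/-- rounding of a soft part by the most likely labels -/
theorem viol_le (s t : E → V) (π : E → Equiv.Perm A) (ω : E → ℝ) (hω : ∀ e, 0 ≤ ω e)
    (F : V → ℝ) (hF : ∀ v, 0 ≤ F v) (L : ((V → A) → ℝ) →ₗ[ℝ] ℝ) (hL : Fct L) (hT : Tri L)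
    (x : V → A) (hx : ∀ v, 1 - vr L v ≤ pr L v (x v)) :
    PS t ω (fun e e' => F (s e) * F (s e') *
      (if π e (x (s e)) = π e' (x (s e')) then 0 else 1)) ≤
      4 * ErrW s t π (al s t ω F) L + 8 * PhiM (fun u => ∑ v, kf (K2 s t ω) F u v) L := by
  have h2 : PS t ω (fun e e' => F (s e) * F (s e') *
      (if π e (x (s e)) = π e' (x (s e')) then 0 else 1)) ≤
      PS t ω (fun e e' => (2 * (F (s e) * F (s e') * (1 - L (sat (s e) (t e) (π e)))) +
        2 * (F (s e') * F (s e) * (1 - L (sat (s e') (t e') (π e'))))) +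
        (4 * (F (s e) * F (s e') * vr L (s e)) + 4 * (F (s e') * F (s e) * vr L (s e')))) := by
    refine PS_mono t ω hω _ _ fun e e' he => ?_
    have h5 := mul_nonneg (hF (s e)) (hF (s e'))
    have v1 := (vr_bounds hL (s e)).1
    have v2 := (vr_bounds hL (s e')).1
    have r1 : 0 ≤ 1 - L (sat (s e) (t e) (π e)) := by linarith [hL.sat1 (s e) (t e) (π e)]
    have r2 : 0 ≤ 1 - L (sat (s e') (t e') (π e')) := by
      linarith [hL.sat1 (s e') (t e') (π e')]
    have key : (if π e (x (s e)) = π e' (x (s e')) then (0 : ℝ) else 1) ≤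
        2 * (1 - L (sat (s e) (t e) (π e))) + 2 * (1 - L (sat (s e') (t e') (π e'))) +
        (4 * vr L (s e) + 4 * vr L (s e')) := by
      split_ifs with h
      · linarith
      · by_cases h1 : vr L (s e) < 1 / 4
        · by_cases h3 : vr L (s e') < 1 / 4
          · have h4 := argmax_edge hL x hx (s e) (s e') ((π e).trans (π e').symm) h1 h3 (by
              intro h6
              apply h
              have h7 : (π e').symm (π e (x (s e))) = x (s e') := h6
              rw [← h7, Equiv.apply_symm_apply])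
            have h6 := hT (s e) (s e') (t e) (π e) (π e')
            rw [he] at h6
            rw [← he] at h6 ⊢
            linarith
          · push Not at h3
            linarith
        · push Not at h1
          linarith
    have h6 := mul_le_mul_of_nonneg_left key h5
    linarith
  rw [PS_add, PS_add, PS_add, PS_smul, PS_smul, PS_smul, PS_smul] at h2
  have h7 : PS t ω (fun e e' => F (s e') * F (s e) * (1 - L (sat (s e') (t e') (π e')))) =
      PS t ω (fun e e' => F (s e) * F (s e') * (1 - L (sat (s e) (t e) (π e)))) :=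
    PS_comm t ω fun e e' => F (s e) * F (s e') * (1 - L (sat (s e) (t e) (π e)))
  have h8 : PS t ω (fun e e' => F (s e') * F (s e) * vr L (s e')) =
      PS t ω (fun e e' => F (s e) * F (s e') * vr L (s e)) :=
    PS_comm t ω fun e e' => F (s e) * F (s e') * vr L (s e)
  have h9 : ErrW s t π (al s t ω F) L =
      PS t ω (fun e e' => F (s e) * F (s e') * (1 - L (sat (s e) (t e) (π e)))) :=
    al_sum s t ω F fun e => 1 - L (sat (s e) (t e) (π e))
  have h10 : PhiM (fun u => ∑ v, kf (K2 s t ω) F u v) L =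
      PS t ω (fun e e' => F (s e) * F (s e') * vr L (s e)) := by
    rw [← K2_sum s t ω fun u v => F u * F v * vr L u]
    unfold PhiM kf
    refine sum_congr rfl fun u _ => ?_
    rw [sum_mul]
    exact sum_congr rfl fun v _ => by ring
  rw [h7, h8] at h2
  rw [h9, h10]
  linarith

end

end Pool.Agent.TH522.US
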