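import Pool.Agent.TH522.UG.GC

/-!
Reversible chains with a nonnegative spectrum and a one-step `L^p` to `L^2` inequality:
decay of the return probabilities and global correlation.
-/

namespace Pool.Agent.TH522.US

open Finset Pool.Agent.H647R3.UG Pool.Agent.H573R3.SL

/-- a self-adjoint, positive, mass preserving operator with nonnegative spectrum -/
structure IsOper {W : Type} [Fintype W] (m : W → ℝ) (T : (W → ℝ) → (W → ℝ)) : Prop where
  pos : ∀ u, 0 < m u
  sym : ∀ f g : W → ℝ, ip m (T f) g = ip m f (T g)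
  tot : ∀ f : W → ℝ, ∑ u, m u * T f u = ∑ u, m u * f u
  nn : ∀ f : W → ℝ, (∀ u, 0 ≤ f u) → ∀ u, 0 ≤ T f u
  sq : ∀ f : W → ℝ, ip m (T f) (T f) ≤ ip m f (T f)
  lin : ∀ (f g : W → ℝ) (c : ℝ), T (fun u => f u + c * g u) = fun u => T f u + c * T g u

section
variable {W : Type} [Fintype W] {m : W → ℝ} {T : (W → ℝ) → (W → ℝ)}

theorem iter_lin (h : IsOper m T) (f g : W → ℝ) (c : ℝ) (s : ℕ) :
    T^[s] (fun u => f u + c * g u) = fun u => T^[s] f u + c * T^[s] g u := by
  induction s generalizing f g with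
  | zero => rfl
  | succ s ih =>
    rw [Function.iterate_succ_apply, h.lin, ih]
    rfl

theorem move (h : IsOper m T) (f g : W → ℝ) (s : ℕ) :
    ip m (T^[s] f) g = ip m f (T^[s] g) := by
  induction s generalizing f g with
  | zero => rfl
  | succ s ih =>
    rw [Function.iterate_succ_apply, ih, h.sym, Function.iterate_succ_apply']

theorem nonneg (h : IsOper m T) (f : W → ℝ) (s : ℕ) : 0 ≤ ip m f (T^[s] f) := by
  obtain ⟨k, hk⟩ := Nat.even_or_odd' s
  rcases hk with hk | hk
  · rw [hk, two_mul, Function.iterate_add_apply, ← move h]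
    exact LCX.ip_self_nonneg h.pos _
  · have h1 : s = k + (k + 1) := by omega
    rw [h1, Function.iterate_add_apply, ← move h, Function.iterate_succ_apply']
    exact (LCX.ip_self_nonneg h.pos _).trans (h.sq _)

theorem quad (h : IsOper m T) (f : W → ℝ) (s : ℕ) (t : ℝ) :
    ip m (fun u => f u + t * T f u) (T^[s] (fun u => f u + t * T f u))
      = ip m f (T^[s + 2] f) * (t * t) + 2 * ip m f (T^[s + 1] f) * t + ip m f (T^[s] f) := by
  rw [iter_lin h, LCX.ip_lin_left, LCX.ip_lin_right, LCX.ip_lin_right, h.sym, h.sym,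
    ← Function.iterate_succ_apply, ← Function.iterate_succ_apply' T s f,
    ← Function.iterate_succ_apply' T (s + 1) f]
  ring

/-- log-convexity -/
theorem lc {J : Type} [Fintype J] (h : IsOper m T) (U : J → W → ℝ) (τ : ℝ) (hτ1 : τ ≤ 1)
    (hen : (1 - τ) * ∑ j, ip m (U j) (U j) ≤ ∑ j, ip m (U j) (T (U j))) (s : ℕ) :
    (∑ j, ip m (U j) (U j)) * (1 - τ) ^ s ≤ ∑ j, ip m (U j) (T^[s] (U j)) := by
  set a : ℕ → ℝ := fun s => ∑ j, ip m (U j) (T^[s] (U j)) with ha
  have ha0 : ∀ s, 0 ≤ a s := fun s => Finset.sum_nonneg fun j _ => nonneg h (U j) s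
  have hq : ∀ s (t : ℝ), 0 ≤ a (s + 2) * (t * t) + (2 * a (s + 1)) * t + a s := by
    intro s t
    have h1 : a (s + 2) * (t * t) + (2 * a (s + 1)) * t + a s
        = ∑ j, ip m (fun u => U j u + t * T (U j) u) (T^[s] (fun u => U j u + t * T (U j) u)) := by
      simp only [ha]
      rw [Finset.sum_mul, Finset.mul_sum, Finset.sum_mul, ← Finset.sum_add_distrib,
        ← Finset.sum_add_distrib]
      exact Finset.sum_congr rfl fun j _ => (quad h (U j) s t).symm
    rw [h1]
    exact Finset.sum_nonneg fun j _ => nonneg h _ s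
  have hcs : ∀ s, a (s + 1) ^ 2 ≤ a s * a (s + 2) := by
    intro s
    have := discrim_le_zero (hq s)
    unfold discrim at this
    nlinarith
  have hen0 : ∑ j, ip m (U j) (U j) = a 0 := rfl
  have hstep : ∀ s, (1 - τ) * a s ≤ a (s + 1) := by
    intro s
    induction s with
    | zero => exact hen
    | succ s ih =>
      rcases (ha0 s).eq_or_lt with h0 | h0
      · have h1 := hcs s
        rw [← h0, zero_mul] at h1
        have h2 : a (s + 1) = 0 := by nlinarith
        rw [h2, mul_zero]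
        exact ha0 _
      · have h1 := hcs s
        have h2 : a (s + 1) * ((1 - τ) * a s) ≤ a (s + 1) * a (s + 1) :=
          mul_le_mul_of_nonneg_left ih (ha0 _)
        have h3 : a s * ((1 - τ) * a (s + 1)) ≤ a s * a (s + 1 + 1) := by
          nlinarith
        exact le_of_mul_le_mul_left h3 h0
  rw [hen0]
  induction s with
  | zero => simp [ha]
  | succ s ih =>
    have hq0 : 0 ≤ 1 - τ := by linarith
    calc a 0 * (1 - τ) ^ (s + 1) = (1 - τ) * (a 0 * (1 - τ) ^ s) := by ring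
      _ ≤ (1 - τ) * a s := mul_le_mul_of_nonneg_left ih hq0
      _ ≤ a (s + 1) := hstep s

variable [DecidableEq W]

theorem op_zero (h : IsOper m T) : T (fun _ => 0) = fun _ => 0 := by
  have h1 := h.lin (fun _ => 0) (fun _ => 0) (-1)
  funext u
  have h2 := congrFun h1 u
  simp only [mul_zero, add_zero] at h2
  linarith

theorem op_sum (h : IsOper m T) {ι : Type} [DecidableEq ι] (S : Finset ι) (c : ι → ℝ)
    (g : ι → W → ℝ) :
    T (fun u => ∑ i ∈ S, c i * g i u) = fun u => ∑ i ∈ S, c i * T (g i) u := by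
  induction S using Finset.induction_on with
  | empty => simp only [sum_empty]; exact op_zero h
  | insert a S ha ih =>
    have e : (fun u => ∑ i ∈ insert a S, c i * g i u) =
        fun u => (fun u => ∑ i ∈ S, c i * g i u) u + c a * g a u := by
      funext u
      rw [sum_insert ha]
      ring
    rw [e, h.lin, ih]
    funext u
    rw [sum_insert ha]
    ring

theorem it_sum (h : IsOper m T) {ι : Type} [DecidableEq ι] (S : Finset ι) (c : ι → ℝ)
    (g : ι → W → ℝ) (s : ℕ) : T^[s] (fun u => ∑ i ∈ S, c i * g i u) =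
      fun u => ∑ i ∈ S, c i * (T^[s] (g i)) u := by
  induction s with
  | zero => rfl
  | succ s ih =>
    rw [Function.iterate_succ_apply', ih, op_sum h]
    funext u
    apply sum_congr rfl
    intro i _
    rw [Function.iterate_succ_apply']

theorem it_kernel (h : IsOper m T) (f : W → ℝ) (s : ℕ) (u : W) :
    (T^[s] f) u = ∑ v, m v * f v * (T^[s] (dl m v)) u := by
  have e : f = fun u => ∑ v, (m v * f v) * dl m v u := by
    funext u
    rw [sum_eq_single u]
    · unfold dl
      rw [if_pos rfl]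
      have := (h.pos u).ne'
      field_simp
    · intro v _ hv
      unfold dl
      rw [if_neg hv.symm, mul_zero]
    · intro h; exact absurd (mem_univ u) h
  conv_lhs => rw [e]
  rw [it_sum h]

omit [DecidableEq W] in
/-- interpolation -/
theorem interp (m g : W → ℝ) (κ : ℝ) (hκ : 0 < κ) (hκ1 : κ < 1) (hm : ∀ u, 0 ≤ m u)
    (hg : ∀ u, 0 ≤ g u) (h1 : ∑ u, m u * g u = 1) (hX : 0 < ip m g g) :
    (∑ u, m u * g u ^ (2 / (1 + κ))) ^ (1 + κ) ≤ (ip m g g) ^ (1 - κ) := by
  set X := ip m g g with hXd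
  set p : ℝ := 2 / (1 + κ) with hp
  have hp1 : 1 < p := by rw [hp, lt_div_iff₀ (by linarith)]; linarith
  have hp2 : p < 2 := by rw [hp, div_lt_iff₀ (by linarith)]; linarith
  have key : ∀ u, m u * g u ^ p ≤ X ^ (p - 1) * ((2 - p) * (m u * g u) +
      (p - 1) * (m u * g u * g u / X)) := by
    intro u
    rcases (hg u).eq_or_lt with h0 | h0
    · rw [← h0, Real.zero_rpow (by linarith)]
      simp
    · have h2 : g u ^ p = X ^ (p - 1) * (g u ^ (2 - p) * (g u * g u / X) ^ (p - 1)) := by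
        rw [Real.div_rpow (by positivity) hX.le, Real.mul_rpow h0.le h0.le]
        have e1 : X ^ (p - 1) ≠ 0 := (Real.rpow_pos_of_pos hX _).ne'
        have e2 : g u ^ (2 - p) * (g u ^ (p - 1) * g u ^ (p - 1)) = g u ^ p := by
          rw [← Real.rpow_add h0, ← Real.rpow_add h0]
          congr 1
          ring
        rw [← e2]
        field_simp
      have h3 := Real.geom_mean_le_arith_mean2_weighted (w₁ := 2 - p) (w₂ := p - 1)
        (p₁ := g u) (p₂ := g u * g u / X) (by linarith) (by linarith) h0.le (by positivity)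
        (by ring)
      have h4 : 0 ≤ X ^ (p - 1) := (Real.rpow_pos_of_pos hX _).le
      calc m u * g u ^ p = X ^ (p - 1) * (m u * (g u ^ (2 - p) * (g u * g u / X) ^ (p - 1))) := by
            rw [h2]; ring
        _ ≤ X ^ (p - 1) * (m u * ((2 - p) * g u + (p - 1) * (g u * g u / X))) :=
            mul_le_mul_of_nonneg_left (mul_le_mul_of_nonneg_left h3 (hm u)) h4
        _ = _ := by ring
  have hs : ∑ u, m u * g u ^ p ≤ X ^ (p - 1) := by
    refine (sum_le_sum fun u _ => key u).trans ?_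
    rw [← mul_sum, sum_add_distrib, ← mul_sum, ← mul_sum, ← sum_div, h1]
    have : ∑ u, m u * g u * g u = X := rfl
    rw [this, div_self hX.ne']
    apply le_of_eq
    ring
  have h0 : 0 ≤ ∑ u, m u * g u ^ p := sum_nonneg fun u _ =>
    mul_nonneg (hm u) (Real.rpow_nonneg (hg u) _)
  calc (∑ u, m u * g u ^ p) ^ (1 + κ) ≤ (X ^ (p - 1)) ^ (1 + κ) :=
        Real.rpow_le_rpow h0 hs (by linarith)
    _ = X ^ (1 - κ) := by
        rw [← Real.rpow_mul hX.le]
        congr 1
        rw [hp]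
        field_simp
        ring

/-- decay of the return probabilities -/
theorem decay (h : IsOper m T) (κ : ℝ) (hκ : 0 < κ) (hκ1 : κ < 1)
    (hH : ∀ g : W → ℝ, (∀ u, 0 ≤ g u) → ip m g (T g) ≤
      (vol m univ) ^ (-κ) * (∑ u, m u * g u ^ (2 / (1 + κ))) ^ (1 + κ)) (v : W) (s : ℕ) :
    ip m (T^[s] (dl m v)) (T^[s] (dl m v)) ≤
      1 / vol m univ * (vol m univ / m v) ^ ((1 - κ) ^ s : ℝ) := by
  set R := vol m univ with hR
  have hRp : 0 < R := sum_pos (fun u _ => h.pos u) ⟨v, mem_univ v⟩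
  have hv := h.pos v
  set f : ℕ → W → ℝ := fun s => T^[s] (dl m v) with hf
  have hsucc : ∀ s, f (s + 1) = T (f s) := fun s => Function.iterate_succ_apply' _ _ _
  have hnn : ∀ s, ∀ u, 0 ≤ f s u := by
    intro s
    induction s with
    | zero =>
      intro u
      change 0 ≤ dl m v u
      unfold dl
      split_ifs
      · exact (div_pos one_pos hv).le
      · exact le_rfl
    | succ s ih => intro u; rw [hsucc]; exact h.nn _ ih u
  have hsum : ∀ s, ∑ u, m u * f s u = 1 := by
    intro s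
    induction s with
    | zero =>
      change ∑ u, m u * dl m v u = 1
      unfold dl
      rw [sum_eq_single v]
      · rw [if_pos rfl, mul_one_div, div_self hv.ne']
      · intro u _ hu; rw [if_neg hu, mul_zero]
      · intro h; exact absurd (mem_univ v) h
    | succ s ih => rw [hsucc, h.tot]; exact ih
  have hpos : ∀ s, 0 < ip m (f s) (f s) := by
    intro s
    have h0 : ∀ u ∈ (univ : Finset W), 0 ≤ m u * f s u * f s u := fun u _ =>
      mul_nonneg (mul_nonneg (h.pos u).le (hnn s u)) (hnn s u)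
    refine sum_pos' h0 ?_
    by_contra hcon
    push Not at hcon
    have : ∑ u, m u * f s u = 0 := by
      apply sum_eq_zero
      intro u hu
      have h2 := le_antisymm (hcon u hu) (h0 u hu)
      rcases mul_eq_zero.1 h2 with h3 | h3
      · exact h3
      · rw [h3, mul_zero]
    rw [hsum] at this
    exact one_ne_zero this
  have hstep : ∀ s, R * ip m (f (s + 1)) (f (s + 1)) ≤ (R * ip m (f s) (f s)) ^ (1 - κ) := by
    intro s
    have h1 : ip m (f (s + 1)) (f (s + 1)) ≤ R ^ (-κ) * (ip m (f s) (f s)) ^ (1 - κ) := by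
      rw [hsucc]
      refine (h.sq _).trans ((hH _ (hnn s)).trans ?_)
      exact mul_le_mul_of_nonneg_left (interp m (f s) κ hκ hκ1 (fun u => (h.pos u).le) (hnn s)
        (hsum s) (hpos s)) (Real.rpow_pos_of_pos hRp _).le
    rw [Real.mul_rpow hRp.le (hpos s).le]
    have h2 : R * R ^ (-κ) = R ^ (1 - κ) := by
      rw [show (1 - κ) = 1 + (-κ) by ring, Real.rpow_add hRp, Real.rpow_one]
    calc R * ip m (f (s + 1)) (f (s + 1)) ≤ R * (R ^ (-κ) * (ip m (f s) (f s)) ^ (1 - κ)) :=
          mul_le_mul_of_nonneg_left h1 hRp.le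
      _ = R ^ (1 - κ) * (ip m (f s) (f s)) ^ (1 - κ) := by rw [← mul_assoc, h2]
  have hmain : ∀ s : ℕ, R * ip m (f s) (f s) ≤ (R / m v) ^ ((1 - κ) ^ s : ℝ) := by
    intro s
    induction s with
    | zero =>
      have h1 : ip m (f 0) (f 0) = 1 / m v := by
        change ip m (dl m v) (dl m v) = _
        unfold ip dl
        rw [sum_eq_single v]
        · rw [if_pos rfl]
          field_simp
        · intro u _ hu; rw [if_neg hu, mul_zero]
        · intro h; exact absurd (mem_univ v) h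
      rw [h1, pow_zero, Real.rpow_one, mul_one_div]
    | succ s ih =>
      refine (hstep s).trans ?_
      have h1 : 0 ≤ R * ip m (f s) (f s) := mul_nonneg hRp.le (hpos s).le
      refine (Real.rpow_le_rpow h1 ih (by linarith)).trans (le_of_eq ?_)
      rw [← Real.rpow_mul (by positivity), pow_succ]
  have h1 := hmain s
  change ip m (f s) (f s) ≤ _
  rw [one_div, inv_mul_eq_div, le_div_iff₀ hRp]
  linarith

/-- number of steps -/
theorem numbers (κ τ q : ℝ) (hκ : 0 < κ) (hκ1 : κ < 1) (hτ : 0 ≤ τ) (hτ1 : τ ≤ 1 / 2) (hq : 0 < q)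
    (hq1 : q ≤ 1) (s : ℕ) (hs : s = ⌈Real.log (1 / q) / κ⌉₊) :
    (1 - κ) ^ s ≤ q ∧ Real.exp (-(4 * τ * (Real.log (1 / q) / κ + 1))) ≤ ((1 - τ) ^ s) ^ 2 := by
  have hL : 0 ≤ Real.log (1 / q) := Real.log_nonneg (by rw [le_div_iff₀ hq]; linarith)
  have h2 : Real.log (1 / q) / κ ≤ s := by rw [hs]; exact Nat.le_ceil _
  have h3 : (s : ℝ) < Real.log (1 / q) / κ + 1 := by
    rw [hs]; exact Nat.ceil_lt_add_one (by positivity)
  constructor
  · have a1 : 1 - κ ≤ Real.exp (-κ) := by
      have := Real.add_one_le_exp (-κ)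
      linarith
    calc (1 - κ) ^ s ≤ Real.exp (-κ) ^ s := pow_le_pow_left₀ (by linarith) a1 s
      _ = Real.exp (s * -κ) := by rw [← Real.exp_nat_mul]
      _ ≤ Real.exp (-Real.log (1 / q)) := by
          apply Real.exp_le_exp.2
          rw [div_le_iff₀ hκ] at h2
          linarith
      _ = q := by rw [← Real.log_inv, one_div, inv_inv, Real.exp_log hq]
  · have a1 : Real.exp (-(2 * τ)) ≤ 1 - τ := by
      -- convexity between 0 and 1/2
      have h := convexOn_exp.2 (Set.mem_univ (0 : ℝ)) (Set.mem_univ (-1 : ℝ))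
        (by linarith : (0 : ℝ) ≤ 1 - 2 * τ) (by linarith : (0 : ℝ) ≤ 2 * τ) (by ring)
      simp only [smul_eq_mul, mul_zero, zero_add, Real.exp_zero, mul_one] at h
      have he : Real.exp (-1) ≤ 1 / 2 := by
        rw [Real.exp_neg, one_div]
        apply inv_anti₀ (by norm_num)
        have := Real.add_one_le_exp (1 : ℝ)
        linarith
      calc Real.exp (-(2 * τ)) = Real.exp (2 * τ * -1) := by ring_nf
        _ ≤ 1 - 2 * τ + 2 * τ * Real.exp (-1) := h
        _ ≤ 1 - 2 * τ + 2 * τ * (1 / 2) := by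
            have := mul_le_mul_of_nonneg_left he (by linarith : (0 : ℝ) ≤ 2 * τ)
            linarith
        _ = 1 - τ := by ring
    rw [← pow_mul]
    calc Real.exp (-(4 * τ * (Real.log (1 / q) / κ + 1))) ≤ Real.exp ((s * 2 : ℕ) * -(2 * τ)) := by
          apply Real.exp_le_exp.2
          push_cast
          have := mul_le_mul_of_nonneg_left h3.le (by linarith : (0 : ℝ) ≤ 4 * τ)
          linarith
      _ = Real.exp (-(2 * τ)) ^ (s * 2) := by rw [Real.exp_nat_mul]
      _ ≤ (1 - τ) ^ (s * 2) := pow_le_pow_left₀ (Real.exp_pos _).le a1 _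

/-- global correlation, positive masses -/
theorem gcx {J : Type} [Fintype J] (h : IsOper m T) (κ τ q : ℝ) (hκ : 0 < κ) (hκ1 : κ < 1)
    (hτ : 0 ≤ τ) (hτ1 : τ ≤ 1 / 2) (hq : 0 < q) (hq1 : q ≤ 1)
    (hH : ∀ g : W → ℝ, (∀ u, 0 ≤ g u) → ip m g (T g) ≤
      (vol m univ) ^ (-κ) * (∑ u, m u * g u ^ (2 / (1 + κ))) ^ (1 + κ))
    (U : J → W → ℝ) (hW : Nonempty W)
    (hen : (1 - τ) * ∑ j, ip m (U j) (U j) ≤ ∑ j, ip m (U j) (T (U j))) :
    (∑ j, ip m (U j) (U j)) ^ 2 * (Real.exp (-(4 * τ * (Real.log (1 / q) / κ + 1)))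
        * (Fintype.card W : ℝ) ^ (-q))
      ≤ ∑ u, ∑ v, m u * m v * (∑ j, U j u * U j v) ^ 2 := by
  set a : ℝ := ∑ j, ip m (U j) (U j) with had
  have ha : 0 ≤ a := sum_nonneg fun j _ => LCX.ip_self_nonneg h.pos _
  obtain ⟨s, hs⟩ : ∃ s : ℕ, s = ⌈Real.log (1 / q) / κ⌉₊ := ⟨_, rfl⟩
  obtain ⟨hn1, hn2⟩ := numbers κ τ q hκ hκ1 hτ hτ1 hq hq1 s hs
  set δ : ℝ := (1 - κ) ^ s with hδ
  have hδ0 : 0 ≤ δ := pow_nonneg (by linarith) _
  have hδ1 : δ ≤ 1 := hn1.trans hq1
  have hM : 0 < vol m univ := sum_pos (fun u _ => h.pos u) univ_nonempty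
  set H : W → W → ℝ := fun u v => (T^[s] (dl m v)) u with hH'
  set Gm : W → W → ℝ := fun u v => ∑ j, U j u * U j v with hG
  have l1 : a * (1 - τ) ^ s ≤ ∑ u, ∑ v, m u * m v * H u v * Gm u v := by
    refine (lc h U τ (by linarith) hen s).trans (le_of_eq ?_)
    unfold ip
    simp only [it_kernel h (U _) s]
    rw [sum_comm]
    apply sum_congr rfl
    intro u _
    simp only [mul_sum, hG]
    rw [sum_comm]
    apply sum_congr rfl
    intro v _
    apply sum_congr rfl
    intro j _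
    simp only [hH']
    ring
  have hc0 : 0 ≤ a * (1 - τ) ^ s := mul_nonneg ha (pow_nonneg (by linarith) _)
  have l2 : (∑ u, ∑ v, m u * m v * H u v * Gm u v) ^ 2 ≤
      (∑ u, ∑ v, m u * m v * H u v ^ 2) * ∑ u, ∑ v, m u * m v * Gm u v ^ 2 := by
    have h1 := Finset.sum_sq_le_sum_mul_sum_of_sq_le_mul ((univ : Finset W) ×ˢ (univ : Finset W))
      (r := fun p => m p.1 * m p.2 * H p.1 p.2 * Gm p.1 p.2)
      (f := fun p => m p.1 * m p.2 * H p.1 p.2 ^ 2) (g := fun p => m p.1 * m p.2 * Gm p.1 p.2 ^ 2)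
      (fun p _ => mul_nonneg (mul_nonneg (h.pos _).le (h.pos _).le) (sq_nonneg _))
      (fun p _ => mul_nonneg (mul_nonneg (h.pos _).le (h.pos _).le) (sq_nonneg _))
      (fun p _ => le_of_eq (by ring))
    rwa [sum_product, sum_product, sum_product] at h1
  have hn : (1 : ℝ) ≤ (Fintype.card W : ℝ) := by
    exact_mod_cast Fintype.card_pos
  have l3 : ∑ u, ∑ v, m u * m v * H u v ^ 2 ≤ (Fintype.card W : ℝ) ^ q := by
    rw [sum_comm]
    have h1 : ∀ v ∈ (univ : Finset W), ∑ u, m u * m v * H u v ^ 2 ≤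
        m v * (1 / vol m univ * (vol m univ / m v) ^ δ) := by
      intro v _
      have e : ∑ u, m u * m v * H u v ^ 2 = m v * ip m (T^[s] (dl m v)) (T^[s] (dl m v)) := by
        unfold ip
        rw [mul_sum]
        apply sum_congr rfl
        intro u _
        simp only [hH']
        ring
      rw [e]
      exact mul_le_mul_of_nonneg_left (decay h κ hκ hκ1 hH v s) (h.pos v).le
    refine (sum_le_sum h1).trans ?_
    have h2 := T_SQ W m δ h.pos hδ0 hδ1
    have h3 : ∑ v, m v * (1 / vol m univ * (vol m univ / m v) ^ δ) =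
        (∑ v, m v * (4 / vol m univ * (vol m univ / m v) ^ δ)) / 4 := by
      rw [sum_div]
      refine sum_congr rfl fun v _ => ?_
      ring
    rw [h3]
    have h4 : (Fintype.card W : ℝ) ^ δ ≤ (Fintype.card W : ℝ) ^ q :=
      Real.rpow_le_rpow_of_exponent_le hn hn1
    linarith
  set Q : ℝ := ∑ u, ∑ v, m u * m v * Gm u v ^ 2 with hQ
  have hQ0 : 0 ≤ Q := sum_nonneg fun u _ => sum_nonneg fun v _ =>
    mul_nonneg (mul_nonneg (h.pos _).le (h.pos _).le) (sq_nonneg _)
  have l4 : (a * (1 - τ) ^ s) ^ 2 ≤ (Fintype.card W : ℝ) ^ q * Q :=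
    (pow_le_pow_left₀ hc0 l1 2).trans (l2.trans (mul_le_mul_of_nonneg_right l3 hQ0))
  have l5 : a ^ 2 * Real.exp (-(4 * τ * (Real.log (1 / q) / κ + 1))) ≤
      (Fintype.card W : ℝ) ^ q * Q := by
    refine le_trans ?_ l4
    rw [mul_pow]
    exact mul_le_mul_of_nonneg_left hn2 (sq_nonneg _)
  have hp : 0 < (Fintype.card W : ℝ) ^ q := Real.rpow_pos_of_pos (by linarith) _
  have hpn : (Fintype.card W : ℝ) ^ (-q) * (Fintype.card W : ℝ) ^ q = 1 := by
    rw [← Real.rpow_add (by linarith), neg_add_cancel, Real.rpow_zero]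
  refine le_of_mul_le_mul_right ?_ hp
  calc a ^ 2 * (Real.exp (-(4 * τ * (Real.log (1 / q) / κ + 1))) * (Fintype.card W : ℝ) ^ (-q)) *
        (Fintype.card W : ℝ) ^ q
      = a ^ 2 * Real.exp (-(4 * τ * (Real.log (1 / q) / κ + 1))) *
        ((Fintype.card W : ℝ) ^ (-q) * (Fintype.card W : ℝ) ^ q) := by ring
    _ = a ^ 2 * Real.exp (-(4 * τ * (Real.log (1 / q) / κ + 1))) := by rw [hpn, mul_one]
    _ ≤ (Fintype.card W : ℝ) ^ q * Q := l5
    _ = Q * (Fintype.card W : ℝ) ^ q := by ring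

end

end Pool.Agent.TH522.US
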