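import Pool.Agent.TH522.US.Chain

/-!
Chains given by a positive semidefinite kernel; zero masses allowed.
-/

namespace Pool.Agent.TH522.US

open Finset Pool.Agent.H647R3.UG Pool.Agent.H573R3.SL

/-- the bilinear form of a kernel -/
def bil {W : Type} [Fintype W] (K : W → W → ℝ) (f g : W → ℝ) : ℝ := ∑ u, ∑ v, K u v * (f u * g v)

/-- the chain with conductances `K` and masses `m` -/
noncomputable def ch {W : Type} [Fintype W] (K : W → W → ℝ) (m : W → ℝ) (f : W → ℝ) : W → ℝ :=
  fun u => (∑ v, K u v * f v) / m u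

/-- a positive semidefinite kernel with nonnegative entries -/
structure IsKer {W : Type} [Fintype W] (K : W → W → ℝ) : Prop where
  nonneg : ∀ u v, 0 ≤ K u v
  symm : ∀ u v, K u v = K v u
  psd : ∀ f : W → ℝ, 0 ≤ bil K f f

section
variable {W : Type} [Fintype W] {K : W → W → ℝ}

theorem bil_comm (hK : IsKer K) (f g : W → ℝ) : bil K f g = bil K g f := by
  unfold bil
  rw [sum_comm]
  refine sum_congr rfl fun u _ => sum_congr rfl fun v _ => ?_
  rw [hK.symm v u]
  ring

theorem bil_quad (hK : IsKer K) (f g : W → ℝ) (t : ℝ) :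
    bil K (fun u => f u + t * g u) (fun u => f u + t * g u) =
      bil K g g * (t * t) + 2 * bil K f g * t + bil K f f := by
  have h1 : bil K (fun u => f u + t * g u) (fun u => f u + t * g u) =
      bil K g g * (t * t) + bil K f g * t + bil K g f * t + bil K f f := by
    unfold bil
    rw [sum_mul, sum_mul, sum_mul, ← sum_add_distrib, ← sum_add_distrib, ← sum_add_distrib]
    refine sum_congr rfl fun u _ => ?_
    rw [sum_mul, sum_mul, sum_mul, ← sum_add_distrib, ← sum_add_distrib, ← sum_add_distrib]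
    refine sum_congr rfl fun v _ => ?_
    ring
  rw [h1, bil_comm hK g f]
  ring

theorem bil_cs (hK : IsKer K) (f g : W → ℝ) : bil K f g ^ 2 ≤ bil K g g * bil K f f := by
  have h : ∀ t : ℝ, 0 ≤ bil K g g * (t * t) + (2 * bil K f g) * t + bil K f f := fun t => by
    rw [← bil_quad hK]
    exact hK.psd _
  have := discrim_le_zero h
  unfold discrim at this
  nlinarith

theorem bil_en (hK : IsKer K) (m : W → ℝ) (hd : ∀ u, ∑ v, K u v = m u) (f : W → ℝ) :
    bil K f f = ip m f f - en K f := by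
  unfold bil en ip
  have h1 : ∑ u, ∑ v, K u v * (f u - f v) ^ 2 = 2 * (∑ u, m u * f u * f u) -
      2 * ∑ u, ∑ v, K u v * (f u * f v) := by
    have e1 : ∑ u, ∑ v, K u v * (f u * f u) = ∑ u, m u * f u * f u := by
      refine sum_congr rfl fun u _ => ?_
      rw [← sum_mul, hd]
      ring
    have e2 : ∑ u, ∑ v, K u v * (f v * f v) = ∑ u, m u * f u * f u := by
      rw [← e1, sum_comm]
      refine sum_congr rfl fun u _ => sum_congr rfl fun v _ => ?_
      rw [hK.symm]
    have e3 : 2 * (∑ u, m u * f u * f u) = ∑ u, ∑ v, K u v * (f u * f u) +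
        ∑ u, ∑ v, K u v * (f v * f v) := by rw [e1, e2]; ring
    rw [e3, mul_sum, ← sum_add_distrib, ← sum_sub_distrib]
    refine sum_congr rfl fun u _ => ?_
    rw [mul_sum, ← sum_add_distrib, ← sum_sub_distrib]
    refine sum_congr rfl fun v _ => ?_
    ring
  rw [h1]
  ring

theorem en_nonneg (hK : IsKer K) (f : W → ℝ) : 0 ≤ en K f := by
  unfold en
  exact mul_nonneg (by norm_num) (sum_nonneg fun u _ => sum_nonneg fun v _ =>
    mul_nonneg (hK.nonneg u v) (sq_nonneg _))

theorem ip_ch (m : W → ℝ) (hm : ∀ u, 0 < m u) (f g : W → ℝ) :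
    ip m f (ch K m g) = bil K f g := by
  unfold ip ch bil
  refine sum_congr rfl fun u _ => ?_
  have := (hm u).ne'
  have e : ∑ v, K u v * (f u * g v) = f u * ∑ v, K u v * g v := by
    rw [mul_sum]
    exact sum_congr rfl fun v _ => by ring
  rw [e]
  field_simp

theorem isOper (hK : IsKer K) (m : W → ℝ) (hm : ∀ u, 0 < m u) (hd : ∀ u, ∑ v, K u v = m u) :
    IsOper m (ch K m) where
  pos := hm
  sym f g := by rw [OPX.ip_comm, ip_ch m hm, ip_ch m hm, bil_comm hK]
  tot f := by
    have h1 : ∑ u, m u * ch K m f u = ip m (fun _ => 1) (ch K m f) := by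
      unfold ip
      exact sum_congr rfl fun u _ => by ring
    rw [h1, ip_ch m hm, bil_comm hK]
    unfold bil
    refine sum_congr rfl fun u _ => ?_
    rw [← hd u, sum_mul]
    refine sum_congr rfl fun v _ => by ring
  nn f hf u := div_nonneg (sum_nonneg fun v _ => mul_nonneg (hK.nonneg u v) (hf v)) (hm u).le
  sq f := by
    set g := ch K m f with hg
    have h1 : ip m g g = bil K g f := by
      conv_lhs => rw [hg]
      rw [← hg, ip_ch m hm]
    have h2 : bil K g g ≤ ip m g g := by
      rw [bil_en hK m hd]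
      linarith [en_nonneg hK g]
    have h3 : ip m f g = bil K f f := ip_ch m hm f f
    have h4 := bil_cs hK g f
    rw [h3]
    have h5 := hK.psd f
    have h6 := LCX.ip_self_nonneg hm g
    rcases h6.eq_or_lt with h7 | h7
    · rw [← h7]; exact h5
    · have h8 : ip m g g * ip m g g ≤ ip m g g * bil K f f := by
        calc ip m g g * ip m g g = bil K g f ^ 2 := by rw [h1]; ring
          _ ≤ bil K f f * bil K g g := h4
          _ ≤ bil K f f * ip m g g := mul_le_mul_of_nonneg_left h2 h5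
          _ = _ := by ring
      exact le_of_mul_le_mul_left h8 h7
  lin f g c := by
    funext u
    unfold ch
    have : ∑ v, K u v * (f v + c * g v) = ∑ v, K u v * f v + c * ∑ v, K u v * g v := by
      rw [mul_sum, ← sum_add_distrib]
      exact sum_congr rfl fun v _ => by ring
    simp only [this]
    ring

end

open Classical in
/-- global correlation, zero masses allowed -/
theorem gcx0 {V J : Type} [Fintype V] [Fintype J] (K : V → V → ℝ) (hK : IsKer K) (m : V → ℝ)
    (hd : ∀ u, ∑ v, K u v = m u) (κ τ q : ℝ) (n : ℕ) (hκ : 0 < κ) (hκ1 : κ < 1)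
    (hτ : 0 ≤ τ) (hτ1 : τ ≤ 1 / 2) (hq : 0 < q) (hq1 : q ≤ 1)
    (hn : (univ.filter fun v => 0 < m v).card ≤ n)
    (hH : ∀ g : V → ℝ, (∀ u, 0 ≤ g u) → bil K g g ≤
      (∑ u, m u) ^ (-κ) * (∑ u, m u * g u ^ (2 / (1 + κ))) ^ (1 + κ))
    (U : J → V → ℝ) (hpos : 0 < ∑ j, ip m (U j) (U j))
    (hen : ∑ j, en K (U j) ≤ τ * ∑ j, ip m (U j) (U j)) :
    (∑ j, ip m (U j) (U j)) ^ 2 * (Real.exp (-(4 * τ * (Real.log (1 / q) / κ + 1)))
        * (n : ℝ) ^ (-q))
      ≤ ∑ u, ∑ v, m u * m v * (∑ j, U j u * U j v) ^ 2 := by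
  have hm : ∀ u, 0 ≤ m u := fun u => by rw [← hd]; exact sum_nonneg fun v _ => hK.nonneg u v
  have h0 : ∀ u, m u = 0 → ∀ v, K u v = 0 := fun u hu v => by
    rw [← hd] at hu
    exact (sum_eq_zero_iff_of_nonneg fun v _ => hK.nonneg u v).1 hu v (mem_univ v)
  have h0' : ∀ u v, m v = 0 → K u v = 0 := fun u v hv => by rw [hK.symm, h0 v hv]
  set W := {v // 0 < m v} with hWd
  set K' : W → W → ℝ := fun u v => K u.1 v.1 with hK'
  set m' : W → ℝ := fun u => m u.1 with hm'
  have ext0 : ∀ (g : W → ℝ), ∃ e : V → ℝ, (∀ u : W, e u.1 = g u) ∧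
      ((∀ u, 0 ≤ g u) → ∀ v, 0 ≤ e v) := by
    intro g
    refine ⟨fun v => if hv : 0 < m v then g ⟨v, hv⟩ else 0, fun u => ?_, fun hg v => ?_⟩
    · simp only [dif_pos u.2]
      rfl
    · simp only
      split_ifs
      · exact hg _
      · exact le_rfl
  have hbil : ∀ (f g : V → ℝ), bil K f g = bil K' (fun u => f u.1) (fun u => g u.1) := by
    intro f g
    unfold bil
    exact GCFL.red2 m hm (fun u v => K u v * (f u * g v)) (fun u v hu => by simp [h0 u hu v])
      (fun u v hv => by simp [h0' u v hv])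
  have hKer : IsKer K' := by
    refine ⟨fun u v => hK.nonneg _ _, fun u v => hK.symm _ _, fun f => ?_⟩
    obtain ⟨e, he, -⟩ := ext0 f
    have h1 := hK.psd e
    rw [hbil] at h1
    simp only [he] at h1
    exact h1
  have hdW : ∀ u : W, ∑ v, K' u v = m' u := by
    intro u
    have h1 := GCFL.red m hm (fun v => K u.1 v) (fun v hv => h0' _ _ hv)
    rw [hd] at h1
    exact h1.symm
  have hop := isOper hKer m' (fun u => u.2) hdW
  have hne : Nonempty W := by
    by_contra hemp
    rw [not_nonempty_iff] at hemp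
    have : ∑ j, ip m (U j) (U j) = 0 := by
      refine Finset.sum_eq_zero fun j _ => ?_
      rw [GCFL.ip_red m hm]
      unfold ip
      exact Fintype.sum_empty _
    linarith
  have hvol : vol m' univ = ∑ u, m u :=
    (GCFL.red m hm (fun v => m v) (fun v hv => hv)).symm
  have hH' : ∀ g : W → ℝ, (∀ u, 0 ≤ g u) → ip m' g (ch K' m' g) ≤
      (vol m' univ) ^ (-κ) * (∑ u, m' u * g u ^ (2 / (1 + κ))) ^ (1 + κ) := by
    intro g hg
    obtain ⟨e, he, he0⟩ := ext0 g
    have h1 := hH e (he0 hg)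
    rw [hbil, GCFL.red m hm (fun u => m u * e u ^ (2 / (1 + κ))) (fun v hv => by simp [hv])] at h1
    simp only [he] at h1
    rw [ip_ch m' (fun u => u.2), hvol]
    exact h1
  have e1 : ∀ j, ip m (U j) (U j) = ip m' (fun u => U j u.1) (fun u => U j u.1) :=
    fun j => GCFL.ip_red m hm _ _
  have e2 : ∀ j, en K (U j) = en K' (fun u => U j u.1) :=
    fun j => GCFL.en_red K m hm hK.symm h0 _
  have e3 : ∑ u, ∑ v, m u * m v * (∑ j, U j u * U j v) ^ 2 =
      ∑ u : W, ∑ v : W, m' u * m' v * (∑ j, U j u.1 * U j v.1) ^ 2 :=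
    GCFL.red2 m hm (fun u v => m u * m v * (∑ j, U j u * U j v) ^ 2) (fun u v hu => by simp [hu])
      (fun u v hv => by simp [hv])
  have h := gcx hop κ τ q hκ hκ1 hτ hτ1 hq hq1 hH' (fun j u => U j u.1) hne (by
    have h1 : ∀ j, ip m' (fun u => U j u.1) (ch K' m' fun u => U j u.1) =
        ip m (U j) (U j) - en K (U j) := by
      intro j
      rw [ip_ch m' (fun u => u.2), bil_en hKer m' hdW, e1, e2]
    rw [sum_congr rfl fun j _ => h1 j, ← sum_congr rfl fun j _ => e1 j, sum_sub_distrib]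
    linarith)
  rw [← sum_congr rfl fun j _ => e1 j] at h
  rw [e3]
  refine le_trans ?_ h
  refine mul_le_mul_of_nonneg_left ?_ (sq_nonneg _)
  refine mul_le_mul_of_nonneg_left ?_ (Real.exp_pos _).le
  have hc : Fintype.card W ≤ n := by
    have h9 : Fintype.card W = (univ.filter fun v => 0 < m v).card :=
      Fintype.card_subtype (fun v => 0 < m v)
    rw [h9]
    exact hn
  have hc1 : 1 ≤ Fintype.card W := Fintype.card_pos
  refine Real.rpow_le_rpow_of_nonpos ?_ ?_ (by linarith)
  · exact_mod_cast hc1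
  · exact_mod_cast hc

end Pool.Agent.TH522.US
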