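import Pool.Agent.TH522.US.Round

/-!
Labelings from the pairs of satisfied edges; the final estimate.
-/

namespace Pool.Agent.TH522.US

open Finset Pool.Agent.H647R3.UG Pool.Agent.H573R3.SL Pool.Agent.TH522.UG

/-- composition of constraints in the mixed hierarchy -/
theorem tri_mixed {V A : Type} [Fintype V] [DecidableEq V] [Fintype A] [DecidableEq A] (k : ℕ)
    (L : ((V → A) → ℝ) →ₗ[ℝ] ℝ) (hL : Mixed (k + 1) L) : Tri L := by
  intro u u' v π π'
  have h1 : 0 ≤ L (fun x => (1 - sat u v π x) + (1 - sat u' v π' x) -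
      (1 - sat u u' (π.trans π'.symm) x)) := by
    refine hL.junta {u, u', v} (card_le_three.trans (by omega)) _ (fun x y h => ?_) fun x => ?_
    · have e1 := Mx.dep_sat u v π {u, u', v} (by simp) (by simp) x y h
      have e2 := Mx.dep_sat u' v π' {u, u', v} (by simp) (by simp) x y h
      have e3 := Mx.dep_sat u u' (π.trans π'.symm) {u, u', v} (by simp) (by simp) x y h
      simp only [e1, e2, e3]
    · have a1 := Mx.sat_le_one u v π x
      have a2 := Mx.sat_le_one u' v π' x
      have a3 := Mx.sat_nonneg u u' (π.trans π'.symm) x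
      by_cases h1 : π (x u) = x v
      · by_cases h2 : π' (x u') = x v
        · have h3 : sat u u' (π.trans π'.symm) x = 1 := by
            unfold sat
            rw [if_pos]
            rw [Equiv.trans_apply, Equiv.symm_apply_eq, h1, h2]
          rw [h3]
          linarith
        · have h3 : sat u' v π' x = 0 := by
            unfold sat
            rw [if_neg h2]
          rw [h3]
          linarith
      · have h3 : sat u v π x = 0 := by
          unfold sat
          rw [if_neg h1]
        rw [h3]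
        linarith
  have h2 : (fun x => (1 - sat u v π x) + (1 - sat u' v π' x) -
      (1 - sat u u' (π.trans π'.symm) x)) =
      ((fun _ => (1 : ℝ)) - sat u v π) + ((fun _ => (1 : ℝ)) - sat u' v π') -
      ((fun _ => (1 : ℝ)) - sat u u' (π.trans π'.symm)) := rfl
  rw [h2, map_sub, map_add, map_sub, map_sub, map_sub, hL.one] at h1
  linarith

section
variable {V E A : Type} [Fintype V] [DecidableEq V] [Fintype E] [Fintype A] [DecidableEq A]

/-- weight of the pairs of edges with sources in `S` on which `x` is consistent -/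
noncomputable def gp (s t : E → V) (π : E → Equiv.Perm A) (ω : E → ℝ) (x : V → A)
    (S : Finset V) : ℝ :=
  PS t ω fun e e' => if (s e ∈ S ∧ s e' ∈ S) ∧ π e (x (s e)) = π e' (x (s e')) then 1 else 0

/-- greedy union of the sets of the parts -/
theorem greedy (s t : E → V) (π : E → Equiv.Perm A) (ω : E → ℝ) (hω : ∀ e, 0 ≤ ω e) (β c : ℝ)
    (hpart : ∀ U0 : Finset V, c ≤ bil (K2 s t ω) (fun v => if v ∈ U0 then 1 else 0)
      (fun v => if v ∈ U0 then 1 else 0) →
      ∃ (x : V → A) (S : Finset V), S.Nonempty ∧ S ⊆ U0 ∧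
        β * ∑ u ∈ S, ds s ω u ≤ gp s t π ω x S) (x0 : V → A) :
    ∀ (N : ℕ) (U0 : Finset V), U0.card ≤ N → ∃ (x : V → A) (T : Finset V), T ⊆ U0 ∧
      bil (K2 s t ω) (fun v => if v ∈ U0 \ T then 1 else 0)
        (fun v => if v ∈ U0 \ T then 1 else 0) < c ∧
      β * ∑ u ∈ T, ds s ω u ≤ gp s t π ω x T := by
  intro N
  induction N with
  | zero =>
    intro U0 hU0
    have h0 : U0 = ∅ := by
      rw [← card_eq_zero]
      omega
    subst h0
    by_cases hc : bil (K2 s t ω) (fun v => if v ∈ (∅ : Finset V) then 1 else 0)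
      (fun v => if v ∈ (∅ : Finset V) then 1 else 0) < c
    · refine ⟨x0, ∅, subset_rfl, by rw [sdiff_empty]; exact hc, ?_⟩
      rw [sum_empty, mul_zero]
      exact PS_nonneg t ω hω _ fun e e' => by split_ifs <;> norm_num
    · push Not at hc
      obtain ⟨x, S, hS, hSU, -⟩ := hpart ∅ hc
      rw [subset_empty] at hSU
      rw [hSU] at hS
      exact absurd hS (by simp)
  | succ N ih =>
    intro U0 hU0
    by_cases hc : bil (K2 s t ω) (fun v => if v ∈ U0 then 1 else 0)
      (fun v => if v ∈ U0 then 1 else 0) < c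
    · refine ⟨x0, ∅, empty_subset _, by rw [sdiff_empty]; exact hc, ?_⟩
      rw [sum_empty, mul_zero]
      exact PS_nonneg t ω hω _ fun e e' => by split_ifs <;> norm_num
    · push Not at hc
      obtain ⟨x1, S, hS, hSU, hSb⟩ := hpart U0 hc
      have hcard : (U0 \ S).card ≤ N := by
        rw [card_sdiff_of_subset hSU]
        have := card_pos.2 hS
        omega
      obtain ⟨x2, T2, hT2, hTc, hTb⟩ := ih (U0 \ S) hcard
      have hdis : Disjoint S T2 := disjoint_of_subset_right hT2 disjoint_sdiff
      refine ⟨fun v => if v ∈ S then x1 v else x2 v, S ∪ T2,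
        union_subset hSU (hT2.trans sdiff_subset), ?_, ?_⟩
      · have h1 : U0 \ (S ∪ T2) = (U0 \ S) \ T2 := by
          ext v
          simp only [mem_sdiff, mem_union]
          tauto
        rw [h1]
        exact hTc
      · rw [sum_union hdis, mul_add]
        refine (add_le_add hSb hTb).trans ?_
        unfold gp
        rw [← PS_add]
        refine PS_mono t ω hω _ _ fun e e' _ => ?_
        by_cases h1 : (s e ∈ S ∧ s e' ∈ S) ∧ π e (x1 (s e)) = π e' (x1 (s e'))
        · have h2 : ¬ ((s e ∈ T2 ∧ s e' ∈ T2) ∧ π e (x2 (s e)) = π e' (x2 (s e'))) :=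
            fun h => (disjoint_left.1 hdis) h1.1.1 h.1.1
          rw [if_pos h1, if_neg h2, if_pos, add_zero]
          refine ⟨⟨mem_union_left _ h1.1.1, mem_union_left _ h1.1.2⟩, ?_⟩
          simp only [if_pos h1.1.1, if_pos h1.1.2]
          exact h1.2
        · rw [if_neg h1, zero_add]
          by_cases h2 : (s e ∈ T2 ∧ s e' ∈ T2) ∧ π e (x2 (s e)) = π e' (x2 (s e'))
          · have h3 : s e ∉ S := fun h => (disjoint_left.1 hdis) h h2.1.1
            have h4 : s e' ∉ S := fun h => (disjoint_left.1 hdis) h h2.1.2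
            rw [if_pos h2, if_pos]
            refine ⟨⟨mem_union_right _ h2.1.1, mem_union_right _ h2.1.2⟩, ?_⟩
            simp only [if_neg h3, if_neg h4]
            exact h2.2
          · rw [if_neg h2]
            split_ifs <;> norm_num

/-- a labeling of the sources and a labeling of the targets -/
theorem two_sided (s t : E → V) (π : E → Equiv.Perm A) (ω : E → ℝ) (hω : ∀ e, 0 ≤ ω e) (β : ℝ)
    (hβ : 0 ≤ β) (hD : 0 < ∑ e, ω e)
    (hpart : ∀ U0 : Finset V, (∑ e, ω e) / 2 ≤ bil (K2 s t ω) (fun v => if v ∈ U0 then 1 else 0)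
      (fun v => if v ∈ U0 then 1 else 0) →
      ∃ (x : V → A) (S : Finset V), S.Nonempty ∧ S ⊆ U0 ∧
        β * ∑ u ∈ S, ds s ω u ≤ gp s t π ω x S) (x0 : V → A) :
    ∃ x y : V → A, β * (∑ e, ω e) / 4 ≤
      ∑ e, ω e * (if π e (x (s e)) = y (t e) then 1 else 0) := by
  obtain ⟨x, T, -, hTc, hTb⟩ := greedy s t π ω hω β ((∑ e, ω e) / 2) hpart x0 _ univ le_rfl
  obtain ⟨e0, -, -⟩ : ∃ e ∈ (univ : Finset E), 0 < ω e := by
    apply exists_lt_of_sum_lt (f := fun _ => (0 : ℝ))
    rw [sum_const_zero]
    exact hD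
  have : Nonempty A := ⟨x (s e0)⟩
  have hdT : (∑ e, ω e) / 4 ≤ ∑ u ∈ T, ds s ω u := by
    have h1 : PS t ω (fun _ _ => 1) ≤ PS t ω (fun e e' =>
        ((if s e ∈ univ \ T then (1 : ℝ) else 0) * (if s e' ∈ univ \ T then 1 else 0)) +
        ((if s e ∈ T then 1 else 0) + (if s e' ∈ T then 1 else 0))) := by
      refine PS_mono t ω hω _ _ fun e e' _ => ?_
      simp only [mem_sdiff, mem_univ, true_and]
      split_ifs <;> norm_num <;> tauto
    have hb := bil_K2 s t ω (fun v => if v ∈ univ \ T then (1 : ℝ) else 0)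
      (fun v => if v ∈ univ \ T then (1 : ℝ) else 0)
    beta_reduce at hb
    rw [PS_add, PS_add, PS_left t ω hω fun _ => 1, ← hb,
      PS_left t ω hω fun e => if s e ∈ T then (1 : ℝ) else 0,
      PS_comm t ω fun e _ => if s e ∈ T then (1 : ℝ) else 0,
      PS_left t ω hω fun e => if s e ∈ T then (1 : ℝ) else 0,
      ← ds_sum s ω fun u => if u ∈ T then (1 : ℝ) else 0] at h1
    simp only [mul_one, mul_ite, mul_zero] at h1
    rw [sum_ite_mem, univ_inter] at h1
    linarith
  -- labels of the targets
  set N : V → A → ℝ := fun v a => ∑ e, if t e = v then ω e *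
    (if s e ∈ T ∧ π e (x (s e)) = a then 1 else 0) else 0 with hN
  have hN0 : ∀ v a, 0 ≤ N v a := fun v a => sum_nonneg fun e _ => by
    have := hω e
    split_ifs <;> simp [this]
  have hmax : ∀ v, ∃ a, ∀ b, N v b ≤ N v a := fun v => Finite.exists_max (N v)
  choose y hy using hmax
  refine ⟨x, y, ?_⟩
  have h1 : gp s t π ω x T = ∑ a, ∑ v, N v a ^ 2 / bd t ω v := by
    have h2 : ∀ a, ∑ v, N v a ^ 2 / bd t ω v = PS t ω (fun e e' =>
        (if s e ∈ T ∧ π e (x (s e)) = a then (1 : ℝ) else 0) *
        (if s e' ∈ T ∧ π e' (x (s e')) = a then 1 else 0)) := fun a =>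
      (PS_sq t ω fun e => if s e ∈ T ∧ π e (x (s e)) = a then (1 : ℝ) else 0).symm
    rw [sum_congr rfl fun a _ => h2 a]
    unfold gp PS
    symm
    rw [sum_comm]
    refine sum_congr rfl fun e _ => ?_
    rw [sum_comm]
    refine sum_congr rfl fun e' _ => ?_
    rw [← mul_sum]
    congr 1
    by_cases h3 : s e ∈ T
    · by_cases h4 : s e' ∈ T
      · simp only [h3, h4, true_and, mul_ite, mul_one, mul_zero, and_self]
        rw [sum_ite_eq, if_pos (mem_univ _)]
      · simp [h4]
    · simp [h3]
  have h2 : gp s t π ω x T ≤ ∑ v, N v (y v) := by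
    rw [h1, sum_comm]
    refine sum_le_sum fun v _ => ?_
    have hb := bd_nonneg t ω hω v
    have h3 : ∑ a, N v a ≤ bd t ω v := by
      simp only [hN]
      rw [sum_comm]
      unfold bd
      refine sum_le_sum fun e _ => ?_
      by_cases h4 : t e = v
      · simp only [if_pos h4]
        rw [← mul_sum]
        have h5 : ∑ a, (if s e ∈ T ∧ π e (x (s e)) = a then (1 : ℝ) else 0) ≤ 1 := by
          by_cases h6 : s e ∈ T
          · simp only [h6, true_and]
            rw [sum_ite_eq, if_pos (mem_univ _)]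
          · simp [h6]
        have := mul_le_mul_of_nonneg_left h5 (hω e)
        linarith
      · simp [h4]
    have h4 : ∑ a, N v a ^ 2 / bd t ω v ≤ N v (y v) * ((∑ a, N v a) / bd t ω v) := by
      rw [sum_div, mul_sum]
      refine sum_le_sum fun a _ => ?_
      rw [sq, mul_div_assoc]
      exact mul_le_mul_of_nonneg_right (hy v a) (div_nonneg (hN0 v a) hb)
    refine h4.trans ?_
    have h5 : (∑ a, N v a) / bd t ω v ≤ 1 := div_le_one_of_le₀ h3 hb
    have := mul_le_mul_of_nonneg_left h5 (hN0 v (y v))
    linarith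
  have h3 : ∑ v, N v (y v) ≤ ∑ e, ω e * (if π e (x (s e)) = y (t e) then 1 else 0) := by
    simp only [hN]
    rw [sum_comm]
    refine sum_le_sum fun e _ => ?_
    rw [sum_ite_eq, if_pos (mem_univ _)]
    refine mul_le_mul_of_nonneg_left ?_ (hω e)
    by_cases h4 : π e (x (s e)) = y (t e)
    · rw [if_pos h4]
      split_ifs <;> norm_num
    · rw [if_neg h4, if_neg fun h => h4 h.2]
  calc β * (∑ e, ω e) / 4 = β * ((∑ e, ω e) / 4) := by ring
    _ ≤ β * ∑ u ∈ T, ds s ω u := mul_le_mul_of_nonneg_left hdT hβ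
    _ ≤ _ := hTb.trans (h2.trans h3)

omit [Fintype E] [Fintype A] [DecidableEq A] in
theorem quarter (a b : V) (hab : a ≠ b) :
    ∑ f : V → Bool, (if f a then (1 : ℝ) else 0) * (if f b then 0 else 1) =
      (1 / 4) * Fintype.card (V → Bool) := by
  have h1 : ∀ f : V → Bool, (if f a then (1 : ℝ) else 0) * (if f b then 0 else 1) =
      ∏ v, (if v = a then (if f v then (1 : ℝ) else 0) else 1) *
        (if v = b then (if f v then 0 else 1) else 1) := by
    intro f
    rw [prod_mul_distrib, prod_ite_eq', prod_ite_eq', if_pos (mem_univ _), if_pos (mem_univ _)]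
  have h2 : ∑ f : V → Bool, ∏ v, (if v = a then (if f v then (1 : ℝ) else 0) else 1) *
        (if v = b then (if f v then 0 else 1) else 1) =
      ∏ v, ∑ c : Bool, (if v = a then (if c then (1 : ℝ) else 0) else 1) *
        (if v = b then (if c then 0 else 1) else 1) := by
    rw [prod_univ_sum, Fintype.piFinset_univ]
  rw [sum_congr rfl fun f _ => h1 f, h2]
  have h3 : ∀ v, ∑ c : Bool, (if v = a then (if c then (1 : ℝ) else 0) else 1) *
        (if v = b then (if c then 0 else 1) else 1) =
      2 * ((if v = a then 1 / 2 else 1) * (if v = b then 1 / 2 else 1)) := by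
    intro v
    rw [Fintype.sum_bool]
    by_cases h4 : v = a
    · have h5 : v ≠ b := fun h => hab (h4.symm.trans h)
      simp [h4, hab]
    · by_cases h5 : v = b
      · simp [h5, Ne.symm hab]
      · simp [h4, h5]
        norm_num
  rw [prod_congr rfl fun v _ => h3 v, prod_mul_distrib, prod_mul_distrib, prod_ite_eq',
    prod_ite_eq', if_pos (mem_univ _), if_pos (mem_univ _), prod_const, Fintype.card_fun,
    Fintype.card_bool, card_univ]
  push_cast
  ring

/-- one labeling from two -/
theorem one_label (s t : E → V) (π : E → Equiv.Perm A) (ω : E → ℝ) (hω : ∀ e, 0 ≤ ω e)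
    (hloop : ∀ e, s e = t e → ω e = 0) (x y : V → A) :
    ∃ z : V → A, (1 / 4) * ∑ e, ω e * (if π e (x (s e)) = y (t e) then 1 else 0) ≤
      ∑ e, ω e * (if π e (z (s e)) = z (t e) then 1 else 0) := by
  set X : (V → Bool) → ℝ := fun f => ∑ e, ω e *
    (if π e ((fun v => if f v then x v else y v) (s e)) = (fun v => if f v then x v else y v) (t e)
      then 1 else 0) with hX
  have h1 : ∑ f : V → Bool, (1 / 4) * ∑ e, ω e * (if π e (x (s e)) = y (t e) then (1 : ℝ) else 0) ≤
      ∑ f : V → Bool, X f := by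
    rw [sum_const, card_univ, nsmul_eq_mul]
    simp only [hX]
    rw [sum_comm, mul_sum, mul_sum]
    refine sum_le_sum fun e _ => ?_
    rw [← mul_sum]
    by_cases hl : s e = t e
    · rw [hloop e hl]
      simp
    · have h2 := quarter (s e) (t e) hl
      have h3 : (Fintype.card (V → Bool) : ℝ) * ((1 / 4) * (ω e *
          (if π e (x (s e)) = y (t e) then 1 else 0))) =
          ω e * ∑ f : V → Bool, ((if f (s e) then (1 : ℝ) else 0) * (if f (t e) then 0 else 1)) *
            (if π e (x (s e)) = y (t e) then 1 else 0) := by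
        rw [← sum_mul, h2]
        ring
      rw [h3]
      refine mul_le_mul_of_nonneg_left (sum_le_sum fun f _ => ?_) (hω e)
      by_cases h4 : f (s e) = true
      · by_cases h5 : f (t e) = true
        · rw [if_pos h5, mul_zero, zero_mul]
          split_ifs <;> norm_num
        · rw [if_pos h4, if_neg h5]
          simp only [if_pos h4, if_neg h5, one_mul]
          exact le_rfl
      · rw [if_neg h4, zero_mul, zero_mul]
        split_ifs <;> norm_num
  obtain ⟨f, -, hf⟩ := exists_le_of_sum_le (univ_nonempty) h1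
  exact ⟨fun v => if f v then x v else y v, hf⟩

/-- labels for the loops -/
theorem loops (s t : E → V) (π : E → Equiv.Perm A) (ω : E → ℝ)
    (hloop : ∀ e, s e ≠ t e → ω e = 0) (L : ((V → A) → ℝ) →ₗ[ℝ] ℝ) (hL : Fct L) :
    ∃ z : V → A, ∑ e, ω e * L (sat (s e) (t e) (π e)) ≤
      ∑ e, ω e * (if π e (z (s e)) = z (t e) then 1 else 0) := by
  set N : V → A → ℝ := fun v a => ∑ e, if s e = v then ω e * (if π e a = a then 1 else 0) else 0
    with hN
  have hex : ∀ v, ∃ a, ∀ b, N v b ≤ N v a := by
    intro v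
    have : Nonempty A := by
      by_contra hA
      rw [not_nonempty_iff] at hA
      have h1 := (hL.law v v).one
      simp at h1
    exact Finite.exists_max (N v)
  choose z hz using hex
  refine ⟨z, ?_⟩
  have h1 : ∑ e, ω e * L (sat (s e) (t e) (π e)) = ∑ v, ∑ a, pr L v a * N v a := by
    have h2 : ∀ v, ∑ a, pr L v a * N v a = ∑ e, if s e = v then ω e *
        L (sat (s e) (t e) (π e)) else 0 := by
      intro v
      simp only [hN, mul_sum]
      rw [sum_comm]
      refine sum_congr rfl fun e _ => ?_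
      by_cases h3 : s e = v
      · simp only [if_pos h3]
        by_cases h4 : s e = t e
        · rw [← h4, hL.sat, hL.diag, h3, mul_sum]
          refine sum_congr rfl fun a _ => ?_
          unfold dg
          by_cases h5 : π e a = a
          · rw [if_pos h5, if_pos h5.symm]
            ring
          · rw [if_neg h5, if_neg fun h => h5 h.symm]
            ring
        · rw [hloop e h4]
          simp
      · simp [h3]
    rw [sum_congr rfl fun v _ => h2 v, sum_comm]
    refine sum_congr rfl fun e _ => ?_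
    rw [sum_ite_eq, if_pos (mem_univ _)]
  have h2 : ∀ v, ∑ a, pr L v a * N v a ≤ N v (z v) := by
    intro v
    calc ∑ a, pr L v a * N v a ≤ ∑ a, pr L v a * N v (z v) :=
          sum_le_sum fun a _ => mul_le_mul_of_nonneg_left (hz v a) (hL.nn v a)
      _ = N v (z v) := by rw [← sum_mul, (hL.law v v).one, one_mul]
  rw [h1]
  refine (sum_le_sum fun v _ => h2 v).trans (le_of_eq ?_)
  simp only [hN]
  rw [sum_comm]
  refine sum_congr rfl fun e _ => ?_
  rw [sum_ite_eq, if_pos (mem_univ _)]
  by_cases h3 : s e = t e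
  · rw [← h3]
  · rw [hloop e h3]
    simp

end

end Pool.Agent.TH522.US
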