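import Pool.Agent.TH522.US.Fin

/-!
Small soundness: the constants.
-/

namespace Pool.Agent.TH522.US

open Finset Pool.Agent.H647R3.UG Pool.Agent.H573R3.SL Pool.Agent.TH522.UG

theorem numk (n : ℕ) (ε l : ℝ) (hε : 0 < ε) (hε1 : ε ≤ 1 / 131072) (hl : ε ≤ l)
    (hln : l ≤ Real.log n) (k : ℕ)
    (hk : (2 : ℝ) ^ 20 * (n : ℝ) ^ ((2 : ℝ) ^ 19 * (ε / l * Real.log (2 / (ε / l)))) ≤ k + 1) :
    2 ≤ k * ((1 / 32 : ℝ) ^ 2 / 64 * (Real.exp (-(4 * (49152 * ε) *
      (Real.log (1 / (ε / l)) / (l / (2 * Real.log n)) + 1))) * (n : ℝ) ^ (-(ε / l)))) := by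
  have hl0 : 0 < l := by linarith
  have hlog : 0 < Real.log n := by linarith
  have hn0 : (0 : ℝ) < n := by
    rcases Nat.eq_zero_or_pos n with h | h
    · rw [h] at hlog; simp at hlog
    · exact_mod_cast h
  have hq0 : 0 < ε / l := by positivity
  have hq1 : ε / l ≤ 1 := by rw [div_le_one hl0]; exact hl
  have e1 : 4 * (49152 * ε) * (Real.log (1 / (ε / l)) / (l / (2 * Real.log n)) + 1) =
      4 * (49152 * ε) + 393216 * (ε / l * Real.log (1 / (ε / l))) * Real.log n := by
    field_simp
    ring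
  rw [e1]
  generalize ε / l = q at hq0 hq1 hk ⊢
  have hlogq : 0 ≤ Real.log (1 / q) := Real.log_nonneg (by rw [le_div_iff₀ hq0]; linarith)
  have hlog2 : Real.log (2 / q) = Real.log 2 + Real.log (1 / q) := by
    rw [← Real.log_mul (by norm_num) (by positivity)]
    congr 1
    ring
  rw [Real.rpow_def_of_pos hn0] at hk ⊢
  rw [← Real.exp_add]
  have hX0 : 0 ≤ Real.log n * ((2 : ℝ) ^ 19 * (q * Real.log (2 / q))) := by
    rw [hlog2]
    have := Real.log_two_gt_d9
    positivity
  have hl2 := Real.log_two_gt_d9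
  set X := Real.log n * ((2 : ℝ) ^ 19 * (q * Real.log (2 / q))) with hX
  set Z := -(4 * (49152 * ε) + 393216 * (q * Real.log (1 / q)) * Real.log n) +
    Real.log n * -q with hZ
  have h1 : -2 ≤ X + Z := by
    have h2 : 0 ≤ Real.log n * (131072 * (q * Real.log (1 / q)) + q * (2 ^ 19 * Real.log 2 - 1)) := by
      have h3 : (0 : ℝ) ≤ 2 ^ 19 * Real.log 2 - 1 := by norm_num; linarith
      positivity
    have h4 : X + Z = -(4 * (49152 * ε)) + Real.log n *
        (131072 * (q * Real.log (1 / q)) + q * (2 ^ 19 * Real.log 2 - 1)) := by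
      rw [hX, hZ, hlog2]
      ring
    rw [h4]
    linarith
  have h2 : 1 ≤ Real.exp X := Real.one_le_exp hX0
  have h3 : ((2 : ℝ) ^ 20 - 1) * Real.exp X ≤ k := by
    have : ((2 : ℝ) ^ 20 - 1) * Real.exp X = 2 ^ 20 * Real.exp X - Real.exp X := by ring
    rw [this]
    linarith
  have h4 : ((2 : ℝ) ^ 20 - 1) * (Real.exp X * Real.exp Z) ≤ k * Real.exp Z := by
    have := mul_le_mul_of_nonneg_right h3 (Real.exp_pos Z).le
    linarith
  rw [← Real.exp_add] at h4
  have h5 : Real.exp (-2) ≤ Real.exp (X + Z) := Real.exp_le_exp.2 h1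
  have h6 : (2 / 15 : ℝ) ≤ Real.exp (-2) := by
    rw [Real.exp_neg, le_inv_comm₀ (by norm_num) (Real.exp_pos _)]
    have h7 : Real.exp 2 = Real.exp 1 * Real.exp 1 := by rw [← Real.exp_add]; norm_num
    have h8 := Real.exp_one_lt_d9
    rw [h7]
    nlinarith [Real.exp_pos 1]
  have h9 : (2 / 15 : ℝ) * ((2 : ℝ) ^ 20 - 1) ≤ k * Real.exp Z := by
    refine le_trans ?_ h4
    rw [mul_comm]
    exact mul_le_mul_of_nonneg_left (h6.trans h5) (by norm_num)
  norm_num at h9 ⊢
  linarith

section
variable {V E A : Type} [Fintype V] [DecidableEq V] [Fintype E] [Fintype A] [DecidableEq A]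

/-- the main estimate -/
theorem core (s t : E → V) (π : E → Equiv.Perm A) (ε l : ℝ) (hε : 0 < ε)
    (hε1 : ε ≤ 1 / 131072) (hl : ε ≤ l) (hln : l ≤ Real.log (Fintype.card V)) (k : ℕ)
    (hk : (2 : ℝ) ^ 20 * (Fintype.card V : ℝ) ^ ((2 : ℝ) ^ 19 *
      (ε / l * Real.log (2 / (ε / l)))) ≤ k + 1)
    (L : ((V → A) → ℝ) →ₗ[ℝ] ℝ) (hL : Mixed (k + 1) L)
    (hval : (1 - ε) * (Fintype.card E : ℝ) ≤ ∑ e, L (sat (s e) (t e) (π e))) :
    ∃ x : V → A, Real.exp (-l) / 65536 * (Fintype.card E : ℝ) ≤
      ((univ.filter fun e => π e (x (s e)) = x (t e)).card : ℝ) := by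
  classical
  have hl0 : 0 < l := by linarith
  have hlog : 0 < Real.log (Fintype.card V) := by linarith
  have hn : 0 < Fintype.card V := by
    rcases Nat.eq_zero_or_pos (Fintype.card V) with h | h
    · rw [h] at hlog; simp at hlog
    · exact h
  have hn0 : (0 : ℝ) < Fintype.card V := by exact_mod_cast hn
  have hnum := numk (Fintype.card V) ε l hε hε1 hl hln k hk
  have hq0 : 0 < ε / l := by positivity
  have hq1 : ε / l ≤ 1 := by rw [div_le_one hl0]; exact hl
  have hfc : Fct L := (hier_mixed V A).fct _ L hL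
  obtain ⟨x0, -⟩ := exists_argmax hfc
  have herr0 : ∀ e, 0 ≤ 1 - L (sat (s e) (t e) (π e)) := fun e => by
    linarith [hfc.sat1 (s e) (t e) (π e)]
  have hexp : 0 < Real.exp (-l) := Real.exp_pos _
  have hexp1 : Real.exp (-l) ≤ 1 := Real.exp_le_one_iff.2 (by linarith)
  -- counting
  have hcount : ∀ (z : V → A) (P : E → Prop) [DecidablePred P],
      ∑ e, (if P e then (1 : ℝ) else 0) * (if π e (z (s e)) = z (t e) then 1 else 0) ≤
        ((univ.filter fun e => π e (z (s e)) = z (t e)).card : ℝ) := by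
    intro z P _
    rw [card_filter]
    push_cast
    refine sum_le_sum fun e _ => ?_
    split_ifs <;> norm_num
  -- good edges
  set G : E → Prop := fun e => 1 - L (sat (s e) (t e) (π e)) ≤ 4 * ε with hG
  have hgood : (3 / 4) * (Fintype.card E : ℝ) ≤ ∑ e, (if G e then (1 : ℝ) else 0) := by
    have h1 : ∀ e, (1 : ℝ) - (if G e then (1 : ℝ) else 0) ≤
        (1 - L (sat (s e) (t e) (π e))) / (4 * ε) := by
      intro e
      by_cases h : G e
      · rw [if_pos h]
        have := div_nonneg (herr0 e) (by linarith : (0 : ℝ) ≤ 4 * ε)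
        linarith
      · rw [if_neg h, sub_zero, le_div_iff₀ (by linarith)]
        simp only [hG, not_le] at h
        linarith
    have h2 := sum_le_sum fun e (_ : e ∈ (univ : Finset E)) => h1 e
    rw [sum_sub_distrib, ← sum_div, sum_sub_distrib, sum_const, card_univ, nsmul_eq_mul,
      mul_one] at h2
    have h3 : ((Fintype.card E : ℝ) - ∑ e, L (sat (s e) (t e) (π e))) / (4 * ε) ≤
        (Fintype.card E : ℝ) / 4 := by
      rw [div_le_div_iff₀ (by linarith) (by norm_num)]
      nlinarith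
    linarith
  have hsplit : ∑ e, (if G e then (1 : ℝ) else 0) =
      ∑ e, (if G e ∧ s e = t e then (1 : ℝ) else 0) +
      ∑ e, (if G e ∧ s e ≠ t e then (1 : ℝ) else 0) := by
    rw [← sum_add_distrib]
    refine sum_congr rfl fun e _ => ?_
    by_cases h1 : G e <;> by_cases h2 : s e = t e <;> simp [h1, h2]
  rcases le_total ((3 / 8) * (Fintype.card E : ℝ))
      (∑ e, (if G e ∧ s e = t e then (1 : ℝ) else 0)) with hcase | hcase
  · -- loops
    obtain ⟨z, hz⟩ := loops s t π (fun e => if G e ∧ s e = t e then (1 : ℝ) else 0)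
      (fun e he => by simp [he]) L hfc
    refine ⟨z, le_trans ?_ (hz.trans (hcount z _))⟩
    have h1 : (1 / 2) * ∑ e, (if G e ∧ s e = t e then (1 : ℝ) else 0) ≤
        ∑ e, (if G e ∧ s e = t e then (1 : ℝ) else 0) * L (sat (s e) (t e) (π e)) := by
      rw [mul_sum]
      refine sum_le_sum fun e _ => ?_
      by_cases h : G e ∧ s e = t e
      · rw [if_pos h]
        have := h.1
        simp only [hG] at this
        linarith
      · rw [if_neg h]; simp
    have h2 : Real.exp (-l) / 65536 * (Fintype.card E : ℝ) ≤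
        1 / 65536 * (Fintype.card E : ℝ) := by
      refine mul_le_mul_of_nonneg_right ?_ (Nat.cast_nonneg _)
      linarith
    have h3 : (0 : ℝ) ≤ Fintype.card E := Nat.cast_nonneg _
    linarith
  · have hcase' : (3 / 8) * (Fintype.card E : ℝ) ≤
        ∑ e, (if G e ∧ s e ≠ t e then (1 : ℝ) else 0) := by linarith
    rcases Nat.eq_zero_or_pos (Fintype.card E) with hE | hE
    · refine ⟨x0, ?_⟩
      rw [hE]
      simp
    have hE0 : (0 : ℝ) < Fintype.card E := by exact_mod_cast hE
    set ω : E → ℝ := fun e => if G e ∧ s e ≠ t e then (1 : ℝ) else 0 with hωd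
    have hω : ∀ e, 0 ≤ ω e := fun e => by simp only [hωd]; split_ifs <;> norm_num
    have hD : 0 < ∑ e, ω e := lt_of_lt_of_le (by linarith) hcase'
    have hloc : ∀ e, 0 < ω e → 1 - L (sat (s e) (t e) (π e)) ≤ 4 * ε := by
      intro e he
      by_contra hcon
      have h1 : ω e = 0 := by
        simp only [hωd]
        rw [if_neg]
        exact fun h => hcon h.1
      linarith
    have hQ : Hier (V := V) (A := A) (fun k L => Mixed (k + 1) L) :=
      ⟨fun k L h => (hier_mixed V A).fct _ L h, fun k L h => (hier_mixed V A).step _ L h,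
        fun k L h => (hier_mixed V A).mono _ L h, fun k L h => (hier_mixed V A).avg _ L h⟩
    have hκ0 : 0 < l / (2 * Real.log (Fintype.card V)) := by positivity
    have hκ1 : l / (2 * Real.log (Fintype.card V)) < 1 := by
      rw [div_lt_one (by positivity)]
      linarith
    have hβe : (Fintype.card V : ℝ) ^ (-(2 * (l / (2 * Real.log (Fintype.card V))))) =
        Real.exp (-l) := by
      rw [Real.rpow_def_of_pos hn0]
      congr 1
      field_simp
    have hpart := fun U0 : Finset V => part_round hQ (fun k L h => tri_mixed k L h) s t π ω hω hD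
      (Fintype.card V) hn (l / (2 * Real.log (Fintype.card V))) (ε / l) (4 * ε) (49152 * ε)
      hκ0 hκ1 hq0 hq1 (by linarith) (by linarith) (by linarith) k hnum L hL hloc U0
      (card_le_univ U0)
    rw [hβe] at hpart
    obtain ⟨x, y, hxy⟩ := two_sided s t π ω hω (Real.exp (-l) / 1024) (by positivity) hD
      hpart x0
    obtain ⟨z, hz⟩ := one_label s t π ω hω (fun e he => by
      simp only [hωd]
      rw [if_neg]
      exact fun h => h.2 he) x y
    refine ⟨z, le_trans ?_ (hz.trans (hcount z _))⟩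
    have h1 : Real.exp (-l) / 1024 * ((3 / 8) * (Fintype.card E : ℝ)) ≤
        Real.exp (-l) / 1024 * ∑ e, ω e := mul_le_mul_of_nonneg_left hcase' (by positivity)
    have h2 : 0 ≤ Real.exp (-l) * (Fintype.card E : ℝ) := by positivity
    linarith

end

end Pool.Agent.TH522.US
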